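import Mathlib
set_option autoImplicit false
set_option linter.unusedSectionVars false

/-!
# Sign classes of finite families of affine functions
-/

namespace Pool.Agent.Y644.PL

open Filter Topology

/-- affine functions on `S` -/
abbrev Fn (S : Type) [AddCommGroup S] [Module ℝ S] : Type := (S →ₗ[ℝ] ℝ) × ℝ

variable {S : Type} [AddCommGroup S] [Module ℝ S]

/-- the value of an affine function -/
def ev (f : Fn S) (s : S) : ℝ := f.1 s + f.2

theorem ev_add (f g : Fn S) (s : S) : ev (f + g) s = ev f s + ev g s := by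
  simp only [ev, Prod.fst_add, Prod.snd_add, LinearMap.add_apply]; ring

theorem ev_smul (a : ℝ) (f : Fn S) (s : S) : ev (a • f) s = a * ev f s := by
  simp only [ev, Prod.smul_fst, Prod.smul_snd, LinearMap.smul_apply, smul_eq_mul]; ring

theorem ev_sub (f g : Fn S) (s : S) : ev (f - g) s = ev f s - ev g s := by
  simp only [ev, Prod.fst_sub, Prod.snd_sub, LinearMap.sub_apply]; ring

theorem ev_neg (f : Fn S) (s : S) : ev (-f) s = -ev f s := by
  simp only [ev, Prod.fst_neg, Prod.snd_neg, LinearMap.neg_apply]; ring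

theorem ev_const (a : ℝ) (s : S) : ev ((0, a) : Fn S) s = a := by simp [ev]

theorem ev_sum {ι : Type} (I : Finset ι) (f : ι → Fn S) (s : S) :
    ev (∑ i ∈ I, f i) s = ∑ i ∈ I, ev (f i) s := by
  classical
  induction I using Finset.induction_on with
  | empty => simp [ev]
  | insert a I ha ih => rw [Finset.sum_insert ha, Finset.sum_insert ha, ev_add, ih]

theorem ev_line (f : Fn S) (s₀ s : S) (δ : ℝ) :
    ev f (s₀ + δ • (s₀ - s)) = ev f s₀ + δ * (ev f s₀ - ev f s) := by
  simp only [ev, map_add, map_smul, map_sub, smul_eq_mul]; ring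

/-- the same signs -/
def Eqv (F : Finset (Fn S)) (s s' : S) : Prop :=
  ∀ f ∈ F, SignType.sign (ev f s) = SignType.sign (ev f s')

theorem Eqv.refl (F : Finset (Fn S)) (s : S) : Eqv F s s := fun _ _ => rfl

theorem Eqv.symm {F : Finset (Fn S)} {s s' : S} (h : Eqv F s s') : Eqv F s' s :=
  fun f hf => (h f hf).symm

theorem Eqv.trans {F : Finset (Fn S)} {s s' s'' : S} (h : Eqv F s s') (h' : Eqv F s' s'') :
    Eqv F s s'' := fun f hf => (h f hf).trans (h' f hf)

theorem Eqv.mono {F F' : Finset (Fn S)} {s s' : S} (h : Eqv F' s s') (hF : F ⊆ F') : Eqv F s s' :=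
  fun f hf => h f (hF hf)

theorem sign_small (p q : ℝ) : ∀ᶠ δ in 𝓝[>] (0 : ℝ), SignType.sign (p + δ * q) =
    if p = 0 then SignType.sign q else SignType.sign p := by
  split_ifs with hp
  · filter_upwards [self_mem_nhdsWithin] with δ hδ
    have hδ' : (0 : ℝ) < δ := hδ
    rw [hp, zero_add, sign_mul, sign_pos hδ', one_mul]
  · have hc : Tendsto (fun δ : ℝ => p + δ * q) (𝓝[>] 0) (𝓝 p) := by
      have : Tendsto (fun δ : ℝ => p + δ * q) (𝓝 0) (𝓝 (p + 0 * q)) :=
        (continuous_const.add (continuous_id.mul continuous_const)).tendsto 0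
      rw [zero_mul, add_zero] at this
      exact this.mono_left nhdsWithin_le_nhds
    rcases lt_or_gt_of_ne hp with h | h
    · filter_upwards [hc.eventually (gt_mem_nhds h)] with δ hδ
      rw [sign_neg h, sign_neg hδ]
    · filter_upwards [hc.eventually (lt_mem_nhds h)] with δ hδ
      rw [sign_pos h, sign_pos hδ]

/-- sign classes are relatively open -/
theorem Eqv.line {F : Finset (Fn S)} {s s₀ : S} (h : Eqv F s s₀) :
    ∃ δ : ℝ, 0 < δ ∧ Eqv F (s₀ + δ • (s₀ - s)) s₀ := by
  have h1 : ∀ᶠ δ in 𝓝[>] (0 : ℝ), ∀ f ∈ F,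
      SignType.sign (ev f s₀ + δ * (ev f s₀ - ev f s)) = SignType.sign (ev f s₀) := by
    rw [eventually_all_finset]
    intro f hf
    filter_upwards [sign_small (ev f s₀) (ev f s₀ - ev f s)] with δ hδ
    rw [hδ]
    split_ifs with h0
    · have h2 := h f hf
      rw [h0, sign_zero] at h2
      rw [h0, sign_eq_zero_iff.1 h2, sub_zero]
    · rfl
  obtain ⟨δ, h2, h3⟩ := (h1.and self_mem_nhdsWithin).exists
  exact ⟨δ, h3, fun f hf => by rw [ev_line]; exact h2 f hf⟩

/-- the part of an affine function on `S × ℝ` that depends on `S` -/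
def f0 (f : Fn (S × ℝ)) : Fn S := (f.1.comp (LinearMap.inl ℝ S ℝ), f.2)

/-- the coefficient of the last variable -/
def al (f : Fn (S × ℝ)) : ℝ := f.1 (0, 1)

theorem ev_prod (f : Fn (S × ℝ)) (s : S) (μ : ℝ) : ev f (s, μ) = ev (f0 f) s + al f * μ := by
  have e : ((s, μ) : S × ℝ) = (s, 0) + μ • (0, 1) := by simp
  unfold ev
  rw [e, map_add, map_smul]
  simp only [f0, al, LinearMap.comp_apply, LinearMap.inl_apply, smul_eq_mul]
  ring

/-- lift of a function, plus a multiple of the last variable -/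
def lift (f : Fn S) (a : ℝ) : Fn (S × ℝ) :=
  (f.1.comp (LinearMap.fst ℝ S ℝ) + a • LinearMap.snd ℝ S ℝ, f.2)

theorem ev_lift (f : Fn S) (a : ℝ) (s : S) (μ : ℝ) : ev (lift f a) (s, μ) = ev f s + a * μ := by
  simp only [ev, lift, LinearMap.add_apply, LinearMap.comp_apply, LinearMap.fst_apply,
    LinearMap.smul_apply, LinearMap.snd_apply, smul_eq_mul]
  ring

/-- the root with respect to the last variable -/
noncomputable def root (f : Fn (S × ℝ)) : Fn S := (-(al f)⁻¹) • f0 f

theorem ev_root {f : Fn (S × ℝ)} (hf : al f ≠ 0) (s : S) (μ : ℝ) :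
    ev f (s, μ) = al f * (μ - ev (root f) s) := by
  rw [ev_prod, root, ev_smul]
  field_simp
  ring

open Classical in
/-- elimination of the last variable -/
noncomputable def elim (F : Finset (Fn (S × ℝ))) : Finset (Fn S) :=
  F.image f0 ∪ (F ×ˢ F).image fun p => root p.1 - root p.2

theorem card_elim (F : Finset (Fn (S × ℝ))) : (elim F).card ≤ F.card * F.card + F.card := by
  classical
  unfold elim
  refine (Finset.card_union_le _ _).trans ?_
  have h1 := Finset.card_image_le (s := F) (f := f0 (S := S))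
  have h2 := Finset.card_image_le (s := F ×ˢ F) (f := fun p : Fn (S × ℝ) × Fn (S × ℝ) =>
    root p.1 - root p.2)
  rw [Finset.card_product] at h2
  omega

theorem eqv_of {F : Finset (Fn (S × ℝ))} {s s₀ : S} {μ μ₀ : ℝ} (h : Eqv (elim F) s s₀)
    (h' : ∀ f ∈ F, al f ≠ 0 → SignType.sign (μ - ev (root f) s) =
      SignType.sign (μ₀ - ev (root f) s₀)) : Eqv F (s, μ) (s₀, μ₀) := by
  classical
  intro f hf
  by_cases ha : al f = 0
  · rw [ev_prod, ev_prod, ha, zero_mul, add_zero, zero_mul, add_zero]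
    exact h _ (Finset.mem_union_left _ (Finset.mem_image_of_mem _ hf))
  · rw [ev_root ha, ev_root ha, sign_mul, sign_mul, h' f hf ha]

theorem elim_diff {F : Finset (Fn (S × ℝ))} {s s₀ : S} (h : Eqv (elim F) s s₀)
    {f g : Fn (S × ℝ)} (hf : f ∈ F) (hg : g ∈ F) :
    SignType.sign (ev (root f) s - ev (root g) s) =
      SignType.sign (ev (root f) s₀ - ev (root g) s₀) := by
  classical
  have := h (root f - root g) (Finset.mem_union_right _ (Finset.mem_image.2
    ⟨(f, g), Finset.mem_product.2 ⟨hf, hg⟩, rfl⟩))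
  rwa [ev_sub, ev_sub] at this

theorem elim_lt {F : Finset (Fn (S × ℝ))} {s s₀ : S} (h : Eqv (elim F) s s₀)
    {f g : Fn (S × ℝ)} (hf : f ∈ F) (hg : g ∈ F) (hlt : ev (root f) s₀ < ev (root g) s₀) :
    ev (root f) s < ev (root g) s := by
  have h1 := elim_diff h hf hg
  rw [sign_neg (sub_neg.2 hlt)] at h1
  exact sub_neg.1 (sign_eq_neg_one_iff.1 h1)

theorem elim_le {F : Finset (Fn (S × ℝ))} {s s₀ : S} (h : Eqv (elim F) s s₀)
    {f g : Fn (S × ℝ)} (hf : f ∈ F) (hg : g ∈ F) (hlt : ev (root f) s₀ ≤ ev (root g) s₀) :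
    ev (root f) s ≤ ev (root g) s := by
  by_contra hcon
  push Not at hcon
  have := elim_lt h.symm hg hf hcon
  linarith

/-- A point of the fibre over `s₀` can be moved to the fibres over the class of `s₀`, by an affine
function, so that it stays in its class. -/
theorem transport (F : Finset (Fn (S × ℝ))) (s₀ : S) (μ₀ : ℝ) :
    ∃ m : Fn S, ev m s₀ = μ₀ ∧ ∀ s, Eqv (elim F) s s₀ → Eqv F (s, ev m s) (s₀, μ₀) := by
  classical
  by_cases hA : ∃ g ∈ F, al g ≠ 0 ∧ ev (root g) s₀ = μ₀
  · obtain ⟨g, hg, -, h0⟩ := hA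
    refine ⟨root g, h0, fun s hs => eqv_of hs fun f hf _ => ?_⟩
    rw [← h0]
    exact elim_diff hs hg hf
  · push Not at hA
    set Lo := F.filter fun f => al f ≠ 0 ∧ ev (root f) s₀ < μ₀ with hLo
    set Hi := F.filter fun f => al f ≠ 0 ∧ μ₀ < ev (root f) s₀ with hHi
    have key : ∀ (m : Fn S), ev m s₀ = μ₀ →
        (∀ s, Eqv (elim F) s s₀ → (∀ f ∈ Lo, ev (root f) s < ev m s) ∧
          ∀ f ∈ Hi, ev m s < ev (root f) s) →
        ∃ m : Fn S, ev m s₀ = μ₀ ∧ ∀ s, Eqv (elim F) s s₀ → Eqv F (s, ev m s) (s₀, μ₀) := by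
      intro m hm h
      refine ⟨m, hm, fun s hs => eqv_of hs fun f hf ha => ?_⟩
      rcases lt_trichotomy (ev (root f) s₀) μ₀ with h1 | h1 | h1
      · rw [sign_pos (sub_pos.2 h1), sign_pos (sub_pos.2 ((h s hs).1 f
          (Finset.mem_filter.2 ⟨hf, ha, h1⟩)))]
      · exact absurd h1 (hA f hf ha)
      · rw [sign_neg (sub_neg.2 h1), sign_neg (sub_neg.2 ((h s hs).2 f
          (Finset.mem_filter.2 ⟨hf, ha, h1⟩)))]
    rcases Lo.eq_empty_or_nonempty with hL | hL
    · rcases Hi.eq_empty_or_nonempty with hH | hH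
      · exact key (0, μ₀) (ev_const _ _) fun s _ => by simp [hL, hH]
      · obtain ⟨h, h1, h2⟩ := Hi.exists_min_image (fun f => ev (root f) s₀) hH
        obtain ⟨h3, -, h4⟩ := Finset.mem_filter.1 h1
        refine key (root h + (0, μ₀ - ev (root h) s₀)) (by rw [ev_add, ev_const]; ring)
          fun s hs => ⟨by simp [hL], fun f hf => ?_⟩
        have h5 := elim_le hs h3 (Finset.mem_filter.1 hf).1 (h2 f hf)
        rw [ev_add, ev_const]
        linarith
    · obtain ⟨g, g1, g2⟩ := Lo.exists_max_image (fun f => ev (root f) s₀) hL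
      obtain ⟨g3, -, g4⟩ := Finset.mem_filter.1 g1
      rcases Hi.eq_empty_or_nonempty with hH | hH
      · refine key (root g + (0, μ₀ - ev (root g) s₀)) (by rw [ev_add, ev_const]; ring)
          fun s hs => ⟨fun f hf => ?_, by simp [hH]⟩
        have h5 := elim_le hs (Finset.mem_filter.1 hf).1 g3 (g2 f hf)
        rw [ev_add, ev_const]
        linarith
      · obtain ⟨h, h1, h2⟩ := Hi.exists_min_image (fun f => ev (root f) s₀) hH
        obtain ⟨h3, -, h4⟩ := Finset.mem_filter.1 h1
        have hd : 0 < ev (root h) s₀ - ev (root g) s₀ := by linarith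
        set l := (μ₀ - ev (root g) s₀) / (ev (root h) s₀ - ev (root g) s₀) with hl
        have l0 : 0 < l := div_pos (by linarith) hd
        have l1 : l < 1 := (div_lt_one hd).2 (by linarith)
        have l2 : l * (ev (root h) s₀ - ev (root g) s₀) = μ₀ - ev (root g) s₀ :=
          div_mul_cancel₀ _ hd.ne'
        refine key (root g + l • (root h - root g))
          (by rw [ev_add, ev_smul, ev_sub, l2]; ring) fun s hs => ?_
        have h5 := elim_lt hs g3 h3 (by linarith)
        have h6 : 0 < l * (ev (root h) s - ev (root g) s) := mul_pos l0 (by linarith)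
        have h7 : l * (ev (root h) s - ev (root g) s) < ev (root h) s - ev (root g) s := by
          nlinarith
        refine ⟨fun f hf => ?_, fun f hf => ?_⟩
        · have h8 := elim_le hs (Finset.mem_filter.1 hf).1 g3 (g2 f hf)
          rw [ev_add, ev_smul, ev_sub]
          linarith
        · have h8 := elim_le hs h3 (Finset.mem_filter.1 hf).1 (h2 f hf)
          rw [ev_add, ev_smul, ev_sub]
          linarith

/-- points of a line which meet all classes -/
noncomputable def pts (Z : Finset ℝ) : Finset ℝ :=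
  {0} ∪ Z.image (fun z => z + 1) ∪ Z.image (fun z => z - 1) ∪
    (Z ×ˢ Z).image fun p => (p.1 + p.2) / 2

theorem card_pts (Z : Finset ℝ) : (pts Z).card ≤ (Z.card + 1) ^ 2 := by
  unfold pts
  have h1 := Finset.card_image_le (s := Z) (f := fun z : ℝ => z + 1)
  have h2 := Finset.card_image_le (s := Z) (f := fun z : ℝ => z - 1)
  have h3 := Finset.card_image_le (s := Z ×ˢ Z) (f := fun p : ℝ × ℝ => (p.1 + p.2) / 2)
  rw [Finset.card_product] at h3
  have h4 := Finset.card_union_le ({0} ∪ Z.image (fun z => z + 1) ∪ Z.image (fun z => z - 1))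
    ((Z ×ˢ Z).image fun p => (p.1 + p.2) / 2)
  have h5 := Finset.card_union_le ({0} ∪ Z.image (fun z => z + 1)) (Z.image (fun z => z - 1))
  have h6 := Finset.card_union_le {0} (Z.image (fun z : ℝ => z + 1))
  rw [Finset.card_singleton] at h6
  have : (Z.card + 1) ^ 2 = Z.card * Z.card + 2 * Z.card + 1 := by ring
  omega

theorem pts_spec (Z : Finset ℝ) (μ : ℝ) :
    ∃ ν ∈ pts Z, ∀ z ∈ Z, SignType.sign (μ - z) = SignType.sign (ν - z) := by
  classical
  by_cases hA : μ ∈ Z
  · refine ⟨(μ + μ) / 2, Finset.mem_union_right _ (Finset.mem_image.2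
      ⟨(μ, μ), Finset.mem_product.2 ⟨hA, hA⟩, rfl⟩), fun z _ => ?_⟩
    rw [add_self_div_two]
  · set Lo := Z.filter fun z => z < μ with hLo
    set Hi := Z.filter fun z => μ < z with hHi
    have key : ∀ ν ∈ pts Z, (∀ z ∈ Lo, z < ν) → (∀ z ∈ Hi, ν < z) →
        ∃ ν ∈ pts Z, ∀ z ∈ Z, SignType.sign (μ - z) = SignType.sign (ν - z) := by
      intro ν hν h1 h2
      refine ⟨ν, hν, fun z hz => ?_⟩
      rcases lt_trichotomy z μ with h | h | h
      · rw [sign_pos (sub_pos.2 h), sign_pos (sub_pos.2 (h1 z (Finset.mem_filter.2 ⟨hz, h⟩)))]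
      · exact absurd (h ▸ hz) hA
      · rw [sign_neg (sub_neg.2 h), sign_neg (sub_neg.2 (h2 z (Finset.mem_filter.2 ⟨hz, h⟩)))]
    rcases Lo.eq_empty_or_nonempty with hL | hL
    · rcases Hi.eq_empty_or_nonempty with hH | hH
      · exact key 0 (by simp [pts]) (by simp [hL]) (by simp [hH])
      · obtain ⟨h, h1, h2⟩ := Hi.exists_min_image (fun z => z) hH
        refine key (h - 1) ?_ (by simp [hL]) fun z hz => by have := h2 z hz; linarith
        simp only [pts, Finset.mem_union, Finset.mem_image]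
        exact Or.inl (Or.inr ⟨h, (Finset.mem_filter.1 h1).1, rfl⟩)
    · obtain ⟨g, g1, g2⟩ := Lo.exists_max_image (fun z => z) hL
      rcases Hi.eq_empty_or_nonempty with hH | hH
      · refine key (g + 1) ?_ (fun z hz => by have := g2 z hz; linarith) (by simp [hH])
        simp only [pts, Finset.mem_union, Finset.mem_image]
        exact Or.inl (Or.inl (Or.inr ⟨g, (Finset.mem_filter.1 g1).1, rfl⟩))
      · obtain ⟨h, h1, h2⟩ := Hi.exists_min_image (fun z => z) hH
        have h3 := (Finset.mem_filter.1 g1).2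
        have h4 := (Finset.mem_filter.1 h1).2
        refine key ((g + h) / 2) ?_ (fun z hz => by have := g2 z hz; linarith)
          (fun z hz => by have := h2 z hz; linarith)
        simp only [pts, Finset.mem_union, Finset.mem_image]
        exact Or.inr ⟨(g, h), Finset.mem_product.2 ⟨(Finset.mem_filter.1 g1).1,
          (Finset.mem_filter.1 h1).1⟩, rfl⟩

/-- every family of `h` functions has at most `(h + 2) ^ k` classes -/
def Cov (S : Type) [AddCommGroup S] [Module ℝ S] (k : ℕ) : Prop :=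
  ∀ F : Finset (Fn S), ∃ R : Finset S, R.card ≤ (F.card + 2) ^ k ∧ ∀ s, ∃ r ∈ R, Eqv F s r

theorem cov_unit : Cov Unit 0 := fun F => ⟨{()}, by simp, fun s => ⟨(), by simp, Eqv.refl _ _⟩⟩

theorem Cov.mono {k k' : ℕ} (h : Cov S k) (hk : k ≤ k') : Cov S k' := fun F => by
  obtain ⟨R, h1, h2⟩ := h F
  exact ⟨R, h1.trans (Nat.pow_le_pow_right (by omega) hk), h2⟩

theorem Cov.prod {k : ℕ} (h : Cov S k) : Cov (S × ℝ) (2 * k + 2) := by
  classical
  intro F
  obtain ⟨R, h1, h2⟩ := h (elim F)
  set Z : S → Finset ℝ := fun s => (F.filter fun f => al f ≠ 0).image fun f => ev (root f) s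
    with hZ
  have hZc : ∀ s, (Z s).card ≤ F.card := fun s =>
    Finset.card_image_le.trans (Finset.card_filter_le _ _)
  refine ⟨R.biUnion fun r => (pts (Z r)).image fun μ => (r, μ), ?_, ?_⟩
  · refine Finset.card_biUnion_le.trans ?_
    calc ∑ r ∈ R, ((pts (Z r)).image fun μ => (r, μ)).card ≤ ∑ _r ∈ R, (F.card + 1) ^ 2 :=
          Finset.sum_le_sum fun r _ => Finset.card_image_le.trans
            ((card_pts _).trans (Nat.pow_le_pow_left (by have := hZc r; omega) 2))
      _ = R.card * (F.card + 1) ^ 2 := by rw [Finset.sum_const, smul_eq_mul]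
      _ ≤ ((F.card + 2) ^ 2) ^ k * (F.card + 2) ^ 2 := by
          refine Nat.mul_le_mul (h1.trans (Nat.pow_le_pow_left ?_ k))
            (Nat.pow_le_pow_left (by omega) 2)
          have h3 := card_elim F
          nlinarith
      _ = (F.card + 2) ^ (2 * k + 2) := by rw [← pow_mul, ← pow_add]
  · rintro ⟨s, μ⟩
    obtain ⟨r, r1, r2⟩ := h2 s
    obtain ⟨m, m1, m2⟩ := transport F s μ
    obtain ⟨ν, n1, n2⟩ := pts_spec (Z r) (ev m r)
    refine ⟨(r, ν), Finset.mem_biUnion.2 ⟨r, r1, Finset.mem_image_of_mem _ n1⟩, ?_⟩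
    refine (m2 r r2.symm).symm.trans ?_
    exact eqv_of (Eqv.refl _ _) fun f hf ha => n2 _ (Finset.mem_image_of_mem _
      (Finset.mem_filter.2 ⟨hf, ha⟩))

end Pool.Agent.Y644.PL
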