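import Pool.Agent.Y644.PL.Main
set_option autoImplicit false
set_option linter.unusedSectionVars false
set_option linter.unusedVariables false

/-!
# The number of vertices of a shadow
-/

namespace Pool.Agent.Y644.PL

variable {M N : Type} [Fintype M] [Fintype N] {A : M → N → ℝ} {R : Finset M} {C : Finset N}

theorem df_of_bounded {b : M → ℝ} {c x₀ : N → ℝ} (hx : PF A R C b x₀) {τ : ℝ}
    (h : ∀ x, PF A R C b x → ip c x ≤ τ) : ∃ y, DF A R C c y := by
  classical
  obtain ⟨w0, w, hw0, hw, hf⟩ := Pool.Agent.H249R2.PM.farkas_fin (cons A R C) (rhs R b)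
    (∑ j, c j • LinearMap.proj j) τ x₀ (cons_le.2 hx) (by
      intro x hx'
      have : (∑ j, c j • LinearMap.proj (R := ℝ) (φ := fun _ : N => ℝ) j) x = ip c x := by
        simp [ip]
      rw [this]
      exact h x (cons_le.1 hx'))
  obtain ⟨h1, -⟩ := cert (f := c) (τ := τ) hw (fun x => by
    rw [← hf x]
    simp [ip])
  exact ⟨_, h1⟩

/-- sign classes are convex -/
theorem Eqv.between {F : Finset (Fn (Unit × ℝ))} {x y z : ℝ} (h : Eqv F ((), x) ((), z))
    (h1 : x ≤ y) (h2 : y ≤ z) : Eqv F ((), y) ((), x) := by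
  intro f hf
  have h3 := h f hf
  rw [ev_prod, ev_prod] at h3 ⊢
  rcases h1.lt_or_eq with h1 | rfl
  · rcases lt_trichotomy (ev (f0 f) () + al f * x) 0 with h4 | h4 | h4
    · rw [sign_neg h4] at h3 ⊢
      have h5 := sign_eq_neg_one_iff.1 h3.symm
      rw [sign_eq_neg_one_iff]
      rcases le_total 0 (al f) with ha | ha <;> nlinarith
    · rw [h4, sign_zero] at h3 ⊢
      have h5 := sign_eq_zero_iff.1 h3.symm
      have h6 : al f * (z - x) = 0 := by linarith
      rcases mul_eq_zero.1 h6 with h7 | h7
      · rw [h7, zero_mul] at h4 ⊢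
        rw [h4, sign_zero]
      · linarith
    · rw [sign_pos h4] at h3 ⊢
      have h5 := sign_eq_one_iff.1 h3.symm
      rw [sign_eq_one_iff]
      rcases le_total 0 (al f) with ha | ha <;> nlinarith
  · rfl

/-- **The number of vertices of a shadow** of a polyhedron with a nested structure. -/
theorem count [DecidableEq M] [DecidableEq N] {D : ℕ} (hN : Nested D A Finset.univ Finset.univ)
    {b : M → ℝ} {c' c : N → ℝ} {K : ℕ} {v : ℕ → N → ℝ} {lam : ℕ → ℝ}
    (hlam : ∀ k ≤ K, lam k < lam (k + 1))
    (hPF : ∀ k ≤ K, PF A Finset.univ Finset.univ b (v k))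
    (hopt : ∀ k ≤ K, ∀ θ, lam k ≤ θ → θ ≤ lam (k + 1) → ∀ x, PF A Finset.univ Finset.univ b x →
      ip c' x + θ * ip c x ≤ ip c' (v k) + θ * ip c (v k))
    (hinc : ∀ k < K, ip c (v k) < ip c (v (k + 1))) :
    K + 1 ≤ ((Fintype.card M + Fintype.card N + 2) ^ KK D 2 + 2) ^ 2 := by
  classical
  set cc : N → Fn (Unit × ℝ) := fun j => lift (0, c' j) (c j) with hcc
  set bb : M → Fn Unit := fun i => (0, b i) with hbb
  have hvc : ∀ θ x, ip (vl cc ((), θ)) x = ip c' x + θ * ip c x := fun θ x => by
    unfold ip vl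
    rw [Finset.mul_sum, ← Finset.sum_add_distrib]
    refine Finset.sum_congr rfl fun j _ => ?_
    rw [hcc, ev_lift, ev_const]; ring
  have hvb : vl bb () = b := by funext i; simp [vl, hbb, ev]
  obtain ⟨F, G, f1, f2, f3⟩ := nested_sel D 2 (Unit × ℝ) Unit cov_unit.prod
    (cov_unit.mono (by omega)) A Finset.univ Finset.univ cc bb hN
  obtain ⟨RS, r1, r2⟩ := cov_unit.prod F
  rw [Finset.card_univ, Finset.card_univ] at f1
  have h1 : RS.card ≤ ((Fintype.card M + Fintype.card N + 2) ^ KK D 2 + 2) ^ 2 :=
    r1.trans (Nat.pow_le_pow_left (by omega) 2)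
  refine le_trans ?_ h1
  by_contra hcon
  push Not at hcon
  set θ : ℕ → ℝ := fun k => (lam k + lam (k + 1)) / 2 with hθ
  choose r r3 r4 using r2
  obtain ⟨k, hk, l, hl, hkl, he⟩ := Finset.exists_ne_map_eq_of_card_lt_of_maps_to
    (s := Finset.range (K + 1)) (t := RS) (by rw [Finset.card_range]; exact hcon)
    (f := fun k => r ((), θ k)) (fun k _ => r3 _)
  have mono : ∀ k l, k < l → l ≤ K → lam (k + 1) ≤ lam l := by
    intro k l h1
    induction l with
    | zero => omega
    | succ l ih =>
      intro h2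
      rcases Nat.lt_or_ge k l with h3 | h3
      · exact (ih h3 (by omega)).trans (hlam l (by omega)).le
      · have : k = l := by omega
        rw [this]
  have minc : ∀ k l, k < l → l ≤ K → ip c (v k) < ip c (v l) := by
    intro k l h1
    induction l with
    | zero => omega
    | succ l ih =>
      intro h2
      rcases Nat.lt_or_ge k l with h3 | h3
      · exact (ih h3 (by omega)).trans (hinc l (by omega))
      · have : k = l := by omega
        rw [this]
        exact hinc l (by omega)
  have key : ∀ k l, k < l → l ≤ K → r ((), θ k) = r ((), θ l) → False := by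
    intro k l hkl hl he
    have e1 : Eqv F ((), θ k) ((), θ l) := by
      have h2 := r4 ((), θ k)
      rw [he] at h2
      exact h2.trans (r4 _).symm
    have hk : k ≤ K := by omega
    have g1 := hlam k hk
    have g2 := hlam l hl
    have g3 := mono k l hkl hl
    have t1 : θ k = (lam k + lam (k + 1)) / 2 := rfl
    have t2 : θ l = (lam l + lam (l + 1)) / 2 := rfl
    have hdf : ∃ y, DF A Finset.univ Finset.univ (vl cc ((), θ k)) y :=
      df_of_bounded (hPF k hk) (τ := ip c' (v k) + θ k * ip c (v k)) fun x hx => by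
        rw [hvc]
        exact hopt k hk _ (by rw [t1]; linarith) (by rw [t1]; linarith) x hx
    obtain ⟨xs, ys, hxy⟩ := f3 ((), θ k) () hdf ⟨v k, by rw [hvb]; exact hPF k hk⟩
    have hx : ∀ η, Eqv F ((), η) ((), θ k) →
        PF A Finset.univ Finset.univ b (xs ()) ∧
        ∀ x, PF A Finset.univ Finset.univ b x →
          ip c' x + η * ip c x ≤ ip c' (xs ()) + η * ip c (xs ()) := by
      intro η hη
      have o := hxy ((), η) () hη (Eqv.refl _ _)
      have o1 := o.pf
      rw [hvb] at o1
      refine ⟨o1, fun x hx => ?_⟩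
      rw [← hvc, ← hvc]
      have h2 : PF A Finset.univ Finset.univ (vl bb ()) x := by rw [hvb]; exact hx
      have := weak h2 o.df
      rwa [← o.eq] at this
    -- equality of the objective values
    have heq : ∀ j ≤ K, ∀ η η', η < η' → lam j ≤ η → η' ≤ lam (j + 1) →
        Eqv F ((), η) ((), θ k) → Eqv F ((), η') ((), θ k) → ip c (v j) = ip c (xs ()) := by
      intro j hj η η' h1 h2 h3 h4 h5
      obtain ⟨a1, a2⟩ := hx η h4
      obtain ⟨-, a3⟩ := hx η' h5
      have b1 := a2 _ (hPF j hj)
      have b2 := a3 _ (hPF j hj)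
      have b3 := hopt j hj η h2 (by linarith) _ a1
      have b4 := hopt j hj η' (by linarith) h3 _ a1
      have b5 : (η' - η) * (ip c (v j) - ip c (xs ())) = 0 := by linarith
      rcases mul_eq_zero.1 b5 with h | h
      · linarith
      · linarith
    have q1 : ip c (v k) = ip c (xs ()) := by
      refine heq k hk (θ k) ((θ k + lam (k + 1)) / 2) ?_ ?_ ?_ (Eqv.refl _ _) ?_
      · rw [t1]; linarith
      · rw [t1]; linarith
      · rw [t1]; linarith
      · exact e1.between (by rw [t1]; linarith) (by rw [t1, t2]; linarith)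
    have q2 : ip c (v l) = ip c (xs ()) := by
      refine heq l hl ((lam l + θ l) / 2) (θ l) ?_ ?_ ?_ ?_ e1.symm
      · rw [t2]; linarith
      · rw [t2]; linarith
      · rw [t2]; linarith
      · exact e1.between (by rw [t1, t2]; linarith) (by rw [t2]; linarith)
    have := minc k l hkl hl
    linarith
  rw [Finset.mem_range] at hk hl
  rcases Nat.lt_or_gt_of_ne hkl with h | h
  · exact key k l h (by omega) he
  · exact key l k h (by omega) he.symm

end Pool.Agent.Y644.PL
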