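import Pool.Agent.H249R2.PM.Farkas
set_option autoImplicit false
set_option linter.unusedSectionVars false

/-!
# Linear programming duality

The linear program `max c x`, `A x ≤ b`, `x ≥ 0`, restricted to the rows `R` and the columns `C`.
-/

namespace Pool.Agent.Y644.PL

variable {M N : Type} [Fintype M] [Fintype N]

/-- the inner product -/
def ip {N : Type} [Fintype N] (c x : N → ℝ) : ℝ := ∑ j, c j * x j

theorem ip_comm (c x : N → ℝ) : ip c x = ip x c := Finset.sum_congr rfl fun _ _ => mul_comm _ _

theorem ip_add_left (c d x : N → ℝ) : ip (fun j => c j + d j) x = ip c x + ip d x := by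
  unfold ip; rw [← Finset.sum_add_distrib]; exact Finset.sum_congr rfl fun _ _ => by ring

theorem ip_smul_left (a : ℝ) (c x : N → ℝ) : ip (fun j => a * c j) x = a * ip c x := by
  unfold ip; rw [Finset.mul_sum]; exact Finset.sum_congr rfl fun _ _ => by ring

theorem ip_add_right (c x y : N → ℝ) : ip c (fun j => x j + y j) = ip c x + ip c y := by
  rw [ip_comm, ip_add_left, ip_comm x, ip_comm y]

theorem ip_smul_right (a : ℝ) (c x : N → ℝ) : ip c (fun j => a * x j) = a * ip c x := by
  rw [ip_comm, ip_smul_left, ip_comm x]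

/-- `x` is a feasible solution of the primal program -/
structure PF (A : M → N → ℝ) (R : Finset M) (C : Finset N) (b : M → ℝ) (x : N → ℝ) : Prop where
  nn : ∀ j, 0 ≤ x j
  off : ∀ j, j ∉ C → x j = 0
  le : ∀ i ∈ R, ∑ j, A i j * x j ≤ b i

/-- `y` is a feasible solution of the dual program -/
structure DF (A : M → N → ℝ) (R : Finset M) (C : Finset N) (c : N → ℝ) (y : M → ℝ) : Prop where
  nn : ∀ i, 0 ≤ y i
  off : ∀ i, i ∉ R → y i = 0
  le : ∀ j ∈ C, c j ≤ ∑ i, A i j * y i

/-- the negative transpose -/
def tr (A : M → N → ℝ) : N → M → ℝ := fun j i => -A i j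

variable {A : M → N → ℝ} {R : Finset M} {C : Finset N} {b : M → ℝ} {c : N → ℝ}

theorem tr_tr : tr (tr A) = A := by funext i j; simp [tr]

omit [Fintype N] in
theorem DF.tr {y : M → ℝ} (h : DF A R C c y) : PF (tr A) C R (fun j => -c j) y := by
  refine ⟨h.nn, h.off, fun j hj => ?_⟩
  have := h.le j hj
  simp only [PL.tr, neg_mul, Finset.sum_neg_distrib]
  linarith

omit [Fintype M] in
theorem PF.tr {x : N → ℝ} (h : PF A R C b x) : DF (tr A) C R (fun i => -b i) x := by
  refine ⟨h.nn, h.off, fun i hi => ?_⟩
  have := h.le i hi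
  simp only [PL.tr, neg_mul, Finset.sum_neg_distrib]
  linarith

theorem weak {x : N → ℝ} {y : M → ℝ} (hx : PF A R C b x) (hy : DF A R C c y) :
    ip c x ≤ ip b y := by
  have h1 : ip c x ≤ ∑ j, (∑ i, A i j * y i) * x j := by
    refine Finset.sum_le_sum fun j _ => ?_
    by_cases hj : j ∈ C
    · exact mul_le_mul_of_nonneg_right (hy.le j hj) (hx.nn j)
    · rw [hx.off j hj, mul_zero, mul_zero]
  have h2 : ∑ j, (∑ i, A i j * y i) * x j = ∑ i, (∑ j, A i j * x j) * y i := by
    simp_rw [Finset.sum_mul]
    rw [Finset.sum_comm]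
    exact Finset.sum_congr rfl fun _ _ => Finset.sum_congr rfl fun _ _ => by ring
  have h3 : ∑ i, (∑ j, A i j * x j) * y i ≤ ip b y := by
    refine Finset.sum_le_sum fun i _ => ?_
    by_cases hi : i ∈ R
    · exact mul_le_mul_of_nonneg_right (hx.le i hi) (hy.nn i)
    · rw [hy.off i hi, mul_zero, mul_zero]
  linarith

open Classical in
/-- the constraints of the primal program -/
noncomputable def cons (A : M → N → ℝ) (R : Finset M) (C : Finset N) :
    ((N ⊕ N) ⊕ M) → ((N → ℝ) →ₗ[ℝ] ℝ)
  | .inl (.inl j) => -LinearMap.proj j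
  | .inl (.inr j) => if j ∈ C then 0 else LinearMap.proj j
  | .inr i => if i ∈ R then ∑ j, A i j • LinearMap.proj j else 0

open Classical in
/-- the right-hand sides -/
noncomputable def rhs (R : Finset M) (b : M → ℝ) : ((N ⊕ N) ⊕ M) → ℝ
  | .inl _ => 0
  | .inr i => if i ∈ R then b i else 0

theorem row_apply (i : M) (x : N → ℝ) :
    (∑ j, A i j • LinearMap.proj (R := ℝ) (φ := fun _ : N => ℝ) j) x = ∑ j, A i j * x j := by
  simp

theorem cons_le {x : N → ℝ} :
    (∀ k, cons A R C k x ≤ rhs R b k) ↔ PF A R C b x := by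
  classical
  constructor
  · intro h
    have h1 : ∀ j, 0 ≤ x j := fun j => by
      have := h (.inl (.inl j))
      simp only [cons, rhs, LinearMap.neg_apply, LinearMap.proj_apply] at this
      linarith
    refine ⟨h1, fun j hj => ?_, fun i hi => ?_⟩
    · have := h (.inl (.inr j))
      simp only [cons, rhs, if_neg hj, LinearMap.proj_apply] at this
      exact le_antisymm this (h1 j)
    · have := h (.inr i)
      simp only [cons, rhs, if_pos hi] at this
      rwa [row_apply] at this
  · intro h k
    rcases k with (j | j) | i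
    · simp only [cons, rhs, LinearMap.neg_apply, LinearMap.proj_apply]
      have := h.nn j
      linarith
    · simp only [cons, rhs]
      split_ifs with hj
      · simp
      · rw [LinearMap.proj_apply, h.off j hj]
    · simp only [cons, rhs]
      split_ifs with hi
      · rw [row_apply]; exact h.le i hi
      · simp

open Classical in
/-- evaluation of a certificate -/
theorem cert {f : N → ℝ} {τ w0 : ℝ} {w : ((N ⊕ N) ⊕ M) → ℝ} (hw : ∀ k, 0 ≤ w k)
    (h : ∀ x : N → ℝ, τ - ip f x = w0 + ∑ k, w k * (rhs R b k - cons A R C k x)) :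
    DF A R C f (fun i => if i ∈ R then w (.inr i) else 0) ∧
      τ = w0 + ip b (fun i => if i ∈ R then w (.inr i) else 0) := by
  have h0 := h 0
  have e0 : τ = w0 + ip b (fun i => if i ∈ R then w (.inr i) else 0) := by
    rw [Fintype.sum_sum_type, Fintype.sum_sum_type] at h0
    simp only [cons, rhs, map_zero, sub_zero, mul_zero, Finset.sum_const_zero, zero_add] at h0
    have e1 : ip f 0 = 0 := by simp [ip]
    rw [e1, sub_zero] at h0
    rw [h0]
    congr 1
    refine Finset.sum_congr rfl fun i _ => ?_
    by_cases hi : i ∈ R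
    · simp only [if_pos hi]; ring
    · simp only [if_neg hi]; ring
  refine ⟨⟨fun i => ?_, fun i hi => by simp [hi], fun j hj => ?_⟩, e0⟩
  · split_ifs with hi
    · exact hw _
    · exact le_rfl
  · have h1 := h (Pi.single j 1)
    rw [Fintype.sum_sum_type, Fintype.sum_sum_type] at h1
    have e1 : ip f (Pi.single j 1) = f j := by
      unfold ip
      rw [Finset.sum_eq_single j]
      · simp
      · intro k _ hk; simp [hk]
      · simp
    have e2 : ∑ k : N, w (.inl (.inl k)) * (rhs R b (.inl (.inl k)) -
        cons A R C (.inl (.inl k)) (Pi.single j 1)) = w (.inl (.inl j)) := by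
      rw [Finset.sum_eq_single j]
      · simp [cons, rhs]
      · intro k _ hk
        simp [cons, rhs, hk]
      · simp
    have e3 : ∑ k : N, w (.inl (.inr k)) * (rhs R b (.inl (.inr k)) -
        cons A R C (.inl (.inr k)) (Pi.single j 1)) = 0 := by
      refine Finset.sum_eq_zero fun k _ => ?_
      simp only [cons, rhs]
      split_ifs with hk
      · simp
      · have hkj : k ≠ j := fun h => hk (h ▸ hj)
        simp [hkj]
    have e4 : ∑ i : M, w (.inr i) * (rhs R b (.inr i : (N ⊕ N) ⊕ M) -
        cons A R C (.inr i) (Pi.single j 1)) =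
        ip b (fun i => if i ∈ R then w (.inr i) else 0) -
          ∑ i, A i j * (if i ∈ R then w (.inr i) else 0) := by
      unfold ip
      rw [← Finset.sum_sub_distrib]
      refine Finset.sum_congr rfl fun i _ => ?_
      simp only [cons, rhs]
      split_ifs with hi
      · rw [row_apply]
        have : ∑ k, A i k * (Pi.single j (1 : ℝ) : N → ℝ) k = A i j := by
          rw [Finset.sum_eq_single j]
          · simp
          · intro k _ hk; simp [hk]
          · simp
        rw [this]
        ring
      · simp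
    rw [e1, e2, e3, e4] at h1
    have := hw (.inl (.inl j))
    linarith

theorem dual_att {x₀ : N → ℝ} (hx : PF A R C b x₀) {y₀ : M → ℝ} (hy : DF A R C c y₀) :
    ∃ y, DF A R C c y ∧ ∀ τ, (∀ x, PF A R C b x → ip c x ≤ τ) → ip b y ≤ τ := by
  classical
  set V : Set ℝ := {a | ∃ x, PF A R C b x ∧ ip c x = a} with hV
  have hne : V.Nonempty := ⟨_, x₀, hx, rfl⟩
  have hbd : BddAbove V := ⟨ip b y₀, by rintro _ ⟨x, h, rfl⟩; exact weak h hy⟩
  obtain ⟨w0, w, hw0, hw, hf⟩ := Pool.Agent.H249R2.PM.farkas_fin (cons A R C) (rhs R b)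
    (∑ j, c j • LinearMap.proj j) (sSup V) x₀ (cons_le.2 hx) (by
      intro x hx'
      have : (∑ j, c j • LinearMap.proj (R := ℝ) (φ := fun _ : N => ℝ) j) x = ip c x := by
        simp [ip]
      rw [this]
      exact le_csSup hbd ⟨x, cons_le.1 hx', rfl⟩)
  obtain ⟨h1, h2⟩ := cert (f := c) (τ := sSup V) hw (fun x => by
    rw [← hf x]
    simp [ip])
  refine ⟨_, h1, fun τ hτ => ?_⟩
  have h3 : sSup V ≤ τ := csSup_le hne (by rintro _ ⟨x, h, rfl⟩; exact hτ x h)
  linarith

/-- a pair of optimal solutions -/
structure Opt (A : M → N → ℝ) (R : Finset M) (C : Finset N) (c : N → ℝ) (b : M → ℝ)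
    (x : N → ℝ) (y : M → ℝ) : Prop where
  pf : PF A R C b x
  df : DF A R C c y
  eq : ip c x = ip b y

theorem ip_neg_left (c x : N → ℝ) : ip (fun j => -c j) x = -ip c x := by
  unfold ip; rw [← Finset.sum_neg_distrib]; exact Finset.sum_congr rfl fun _ _ => by ring

/-- strong duality -/
theorem strong {x₀ : N → ℝ} (hx : PF A R C b x₀) {y₀ : M → ℝ} (hy : DF A R C c y₀) :
    ∃ x y, Opt A R C c b x y := by
  obtain ⟨y, y1, y2⟩ := dual_att hx hy
  obtain ⟨x, x1, x2⟩ := dual_att hy.tr hx.tr
  have x1' : PF A R C b x := by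
    have := x1.tr
    rw [tr_tr] at this
    simpa using this
  refine ⟨x, y, x1', y1, le_antisymm (weak x1' y1) ?_⟩
  have h := x2 (-ip b y) (fun y' hy' => by
    have h1 : DF A R C c y' := by
      have := hy'.tr
      rw [tr_tr] at this
      simpa using this
    have h2 := y2 (ip b y') fun x' hx' => weak hx' h1
    rw [ip_neg_left]
    linarith)
  rw [ip_neg_left] at h
  linarith

/-- The ray lemma: if `c` is dual feasible, but `c + ε v` is not, for all `ε > 0`, then there is a
direction of the recession cone on which `c` is zero and `v` is positive. -/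
theorem ray {v : N → ℝ} {y₀ : M → ℝ} (hy : DF A R C c y₀)
    (hn : ∀ ε, 0 < ε → ¬ ∃ y, DF A R C (fun j => c j + ε * v j) y) :
    ∃ d, PF A R C (fun _ => 0) d ∧ ip c d = 0 ∧ 0 < ip v d := by
  classical
  by_contra hcon
  push Not at hcon
  -- the system `d ∈ cone`, `c d ≥ 0` implies `v d ≤ 0`
  obtain ⟨w0, w, hw0, hw, hf⟩ := Pool.Agent.H249R2.PM.farkas_fin
    (fun k : Option ((N ⊕ N) ⊕ M) => match k with
      | some k => cons A R C k
      | none => -∑ j, c j • LinearMap.proj (R := ℝ) (φ := fun _ : N => ℝ) j)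
    (fun _ => 0) (∑ j, v j • LinearMap.proj j) 0 0 (fun k => by simp) (by
      intro x hx
      have h1 : PF A R C (fun _ => 0) x := by
        refine cons_le.1 fun k => ?_
        have := hx (some k)
        have e : rhs R (fun _ => (0 : ℝ)) k = 0 := by
          rcases k with k | i
          · rfl
          · simp [rhs]
        rw [e]
        exact this
      have h2 : 0 ≤ ip c x := by
        have := hx none
        simp only [LinearMap.neg_apply] at this
        have e : (∑ j, c j • LinearMap.proj (R := ℝ) (φ := fun _ : N => ℝ) j) x = ip c x := by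
          simp [ip]
        rw [e] at this
        linarith
      have h3 : ip c x ≤ 0 := by
        have := weak h1 hy
        have e : ip (fun _ : M => (0 : ℝ)) y₀ = 0 := by simp [ip]
        rw [e] at this
        exact this
      have h4 := hcon x h1 (le_antisymm h3 h2)
      have e : (∑ j, v j • LinearMap.proj (R := ℝ) (φ := fun _ : N => ℝ) j) x = ip v x := by
        simp [ip]
      rw [e]
      exact h4)
  set lam := w none with hlam
  have hf' : ∀ x : N → ℝ, 0 - ip (fun j => v j + lam * c j) x =
      w0 + ∑ k, w (some k) * (rhs R (fun _ => (0 : ℝ)) k - cons A R C k x) := by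
    intro x
    have h := hf x
    rw [Fintype.sum_option] at h
    have e : (∑ j, v j • LinearMap.proj (R := ℝ) (φ := fun _ : N => ℝ) j) x = ip v x := by
      simp [ip]
    have e2 : (-∑ j, c j • LinearMap.proj (R := ℝ) (φ := fun _ : N => ℝ) j) x = -ip c x := by
      simp [ip]
    simp only [e2] at h
    rw [e] at h
    have e3 : ∀ k : (N ⊕ N) ⊕ M, rhs R (fun _ => (0 : ℝ)) k = 0 := by
      rintro (k | i)
      · rfl
      · simp [rhs]
    simp only [e3]
    rw [ip_add_left, ip_smul_left]
    linarith
  obtain ⟨h1, h2⟩ := cert (f := fun j => v j + lam * c j) (τ := 0) (b := fun _ => 0)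
    (fun k => hw (some k)) hf'
  set y := fun i => if i ∈ R then w (some (.inr i)) else 0 with hy'
  rcases (hw none).lt_or_eq with hl | hl
  · refine hn (1 / lam) (by positivity) ⟨fun i => 1 / lam * y i, fun i => ?_, fun i hi => ?_,
      fun j hj => ?_⟩
    · exact mul_nonneg (by positivity) (h1.nn i)
    · rw [h1.off i hi, mul_zero]
    · have h3 := h1.le j hj
      have e : ∑ i, A i j * (1 / lam * y i) = 1 / lam * ∑ i, A i j * y i := by
        rw [Finset.mul_sum]
        exact Finset.sum_congr rfl fun _ _ => by ring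
      rw [e]
      have hl' : 0 < lam := hl
      calc c j + 1 / lam * v j = 1 / lam * (v j + lam * c j) := by field_simp; ring
        _ ≤ _ := mul_le_mul_of_nonneg_left h3 (by positivity)
  · refine hn 1 one_pos ⟨fun i => y₀ i + y i, fun i => add_nonneg (hy.nn i) (h1.nn i),
      fun i hi => by rw [hy.off i hi, h1.off i hi, add_zero], fun j hj => ?_⟩
    have h3 := h1.le j hj
    have h4 := hy.le j hj
    have e : ∑ i, A i j * (y₀ i + y i) = ∑ i, A i j * y₀ i + ∑ i, A i j * y i := by
      rw [← Finset.sum_add_distrib]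
      exact Finset.sum_congr rfl fun _ _ => by ring
    rw [e]
    have hl' : lam = 0 := hl.symm
    rw [hl'] at h3
    linarith

end Pool.Agent.Y644.PL
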