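import Pool.Agent.Y644.PL.Rank
set_option autoImplicit false
set_option linter.unusedSectionVars false
set_option linter.unusedVariables false

/-!
# Nested block structures with perturbations of rank one
-/

namespace Pool.Agent.Y644.PL

open Filter Topology

variable {M N : Type} [Fintype M] [Fintype N]
variable {S T : Type} [AddCommGroup S] [Module ℝ S] [AddCommGroup T] [Module ℝ T]

theorem lift_neg (f : Fn S) (a : ℝ) : -lift f a = lift (-f) (-a) := by
  unfold lift
  refine Prod.ext ?_ rfl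
  ext <;> simp

/-- the matrix minus the matrix `u v` of rank one -/
def sub1 (A : M → N → ℝ) (u : M → ℝ) (v : N → ℝ) : M → N → ℝ := fun i j => A i j - u i * v j

theorem row_sub1 (A : M → N → ℝ) (u : M → ℝ) (v : N → ℝ) (i : M) (x : N → ℝ) :
    ∑ j, sub1 A u v i j * x j = ∑ j, A i j * x j - u i * ip v x := by
  unfold sub1 ip
  rw [Finset.mul_sum, ← Finset.sum_sub_distrib]
  exact Finset.sum_congr rfl fun _ _ => by ring

theorem col_sub1 (A : M → N → ℝ) (u : M → ℝ) (v : N → ℝ) (j : N) (y : M → ℝ) :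
    ∑ i, sub1 A u v i j * y i = ∑ i, A i j * y i - v j * ip u y := by
  unfold sub1 ip
  rw [Finset.mul_sum, ← Finset.sum_sub_distrib]
  exact Finset.sum_congr rfl fun _ _ => by ring

/-- the function `(t, z) ↦ z`, times `a` -/
def zc (S : Type) [AddCommGroup S] [Module ℝ S] (a : ℝ) : Fn (S × ℝ) := lift 0 a

theorem ev_zc (a : ℝ) (s : S) (μ : ℝ) : ev (zc S a) (s, μ) = a * μ := by
  unfold zc
  rw [ev_lift]
  simp [ev]

section

variable {A : M → N → ℝ} {R : Finset M} {C : Finset N} {u : M → ℝ} {v : N → ℝ} {c : N → Fn S}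
  {b : M → Fn T} {F : Finset (Fn (S × ℝ))} {G : Finset (Fn (T × ℝ))}

theorem opt_to {c : N → ℝ} {b : M → ℝ} {x : N → ℝ} {y : M → ℝ} (h : Opt A R C c b x y) :
    Opt (sub1 A u v) R C (fun j => c j + -ip u y * v j) (fun i => b i + ip v x * -u i) x y := by
  refine ⟨⟨h.pf.nn, h.pf.off, fun i hi => ?_⟩, ⟨h.df.nn, h.df.off, fun j hj => ?_⟩, ?_⟩
  · rw [row_sub1]
    have := h.pf.le i hi
    linarith
  · rw [col_sub1]
    have := h.df.le j hj
    linarith
  · rw [ip_add_left, ip_add_left, ip_smul_left, ip_smul_left, ip_neg_left, h.eq]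
    ring

theorem opt_from {c : N → ℝ} {b : M → ℝ} {x : N → ℝ} {y : M → ℝ} {μ z : ℝ}
    (h1 : PF (sub1 A u v) R C (fun i => b i + z * -u i) x)
    (h2 : DF (sub1 A u v) R C (fun j => c j + μ * v j) y)
    (h3 : ip (fun j => c j + μ * v j) x = ip (fun i => b i + z * -u i) y)
    (hz : ip v x = z) (hμ : ip u y = -μ) : Opt A R C c b x y := by
  refine ⟨⟨h1.nn, h1.off, fun i hi => ?_⟩, ⟨h2.nn, h2.off, fun j hj => ?_⟩, ?_⟩
  · have := h1.le i hi
    rw [row_sub1, hz] at this
    linarith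
  · have := h2.le j hj
    rw [col_sub1, hμ] at this
    linarith
  · rw [ip_add_left, ip_add_left, ip_smul_left, ip_smul_left, ip_neg_left, hz, hμ] at h3
    linarith

theorem vl_lc (c : N → Fn S) (v : N → ℝ) (s : S) (μ : ℝ) :
    vl (lc c v) (s, μ) = fun j => vl c s j + μ * v j := by
  funext j
  simp only [vl, lc, ev_lift]
  ring

/-- **Perturbation of rank one.** -/
theorem Sel.rank_one (h : Sel (sub1 A u v) R C (lc c v) (lc b fun i => -u i) F G)
    {RS : Finset (S × ℝ)} {RT : Finset (T × ℝ)} (hRS : ∀ p, ∃ r ∈ RS, Eqv F p r)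
    (hRT : ∀ p, ∃ r ∈ RT, Eqv G p r) :
    ∃ (F' : Finset (Fn (S × ℝ))) (G' : Finset (Fn (T × ℝ))),
      F'.card ≤ F.card + RS.card * RT.card ∧ G'.card ≤ G.card + RS.card * RT.card ∧
      Sel A R C c b (elim F') (elim G') := by
  classical
  choose kk hkk using fun P Q => exists_k h P Q
  have htr := h.tr
  have e1 : (fun i => -lc b (fun i => -u i) i) = lc (fun i => -b i) u := by
    funext i
    unfold lc
    rw [lift_neg, neg_neg]
  have e2 : (fun j => -lc c v j) = lc (fun j => -c j) (fun j => -v j) := by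
    funext j
    unfold lc
    rw [lift_neg]
  rw [e1] at htr
  choose k2 hk2 using fun P Q => exists_k (A := PL.tr (sub1 A u v)) htr P Q
  set G' := G ∪ (RS ×ˢ RT).image fun p => kk p.1 p.2 - zc T 1 with hG'
  set F' := F ∪ (RT ×ˢ RS).image fun p => k2 p.1 p.2 - zc S (-1) with hF'
  refine ⟨F', G', ?_, ?_, ?_⟩
  · refine (Finset.card_union_le _ _).trans (Nat.add_le_add_left ?_ _)
    refine Finset.card_image_le.trans ?_
    rw [Finset.card_product, mul_comm]
  · refine (Finset.card_union_le _ _).trans (Nat.add_le_add_left ?_ _)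
    refine Finset.card_image_le.trans ?_
    rw [Finset.card_product]
  rintro s₀ t₀ ⟨y', hy'⟩ ⟨x', hx'⟩
  obtain ⟨x₀, y₀, h0⟩ := strong hx' hy'
  set z₀ := ip v x₀ with hz₀
  set μ₀ := -ip u y₀ with hμ₀
  have hO : Opt (sub1 A u v) R C (vl (lc c v) (s₀, μ₀)) (vl (lc b fun i => -u i) (t₀, z₀))
      x₀ y₀ := by
    rw [vl_lc, vl_lc]
    exact opt_to h0
  obtain ⟨m, m1, m2⟩ := transport F' s₀ μ₀
  obtain ⟨w, w1, w2⟩ := transport G' t₀ z₀
  obtain ⟨xs, ys, hxy⟩ := h (s₀, μ₀) (t₀, z₀) ⟨_, hO.df⟩ ⟨_, hO.pf⟩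
  have hX : ∀ t, Eqv (elim G') t t₀ → ∃ x, PF (sub1 A u v) R C
      (vl (lc b fun i => -u i) (t, ev w t)) x ∧
      (∀ s, Eqv (elim F') s s₀ → ip (vl (lc c v) (s, ev m s)) x =
        ip (vl (lc c v) (s, ev m s)) (xs (t, ev w t))) ∧ ip v x = ev w t := by
    intro t ht
    obtain ⟨x, x1, x2, x3⟩ := both (zf := zc T 1) hRS hRT h hkk
      (Finset.subset_union_left : G ⊆ G')
      (fun P hP Q hQ => Finset.mem_union_right _ (Finset.mem_image.2
        ⟨(P, Q), Finset.mem_product.2 ⟨hP, hQ⟩, rfl⟩)) hO (by rw [ev_zc]; ring)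
      (Sg := fun s => Eqv (elim F') s s₀) m1
      (fun s hs => (m2 s hs).mono Finset.subset_union_left) (fun s hs => hs.line) hxy
      (t := (t, ev w t)) (w2 t ht)
    exact ⟨x, x1, x2, by rw [x3, ev_zc]; ring⟩
  have hY : ∀ s, Eqv (elim F') s s₀ → ∃ y, PF (PL.tr (sub1 A u v)) C R
      (vl (fun j => -lc c v j) (s, ev m s)) y ∧
      (∀ t, Eqv (elim G') t t₀ → ip (vl (lc (fun i => -b i) u) (t, ev w t)) y =
        ip (vl (lc (fun i => -b i) u) (t, ev w t)) (ys (s, ev m s))) ∧ ip u y = -ev m s := by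
    intro s hs
    have hO' := hO.tr
    rw [← vl_neg, ← vl_neg, e1] at hO'
    obtain ⟨y, y1, y2, y3⟩ := both (A := PL.tr (sub1 A u v)) (zf := zc S (-1)) hRT hRS htr hk2
      (Finset.subset_union_left : F ⊆ F')
      (fun P hP Q hQ => Finset.mem_union_right _ (Finset.mem_image.2
        ⟨(P, Q), Finset.mem_product.2 ⟨hP, hQ⟩, rfl⟩)) hO' (by rw [ev_zc]; linarith)
      (Sg := fun t => Eqv (elim G') t t₀) w1
      (fun t ht => (w2 t ht).mono Finset.subset_union_left) (fun t ht => ht.line)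
      (xs := ys) (ys := xs)
      (fun p t hp ht => by
        have := (hxy t p ht hp).tr
        rw [← vl_neg, ← vl_neg, e1] at this
        exact this)
      (t := (s, ev m s)) (m2 s hs)
    exact ⟨y, y1, y2, by rw [y3, ev_zc]; ring⟩
  refine ⟨fun t => if ht : Eqv (elim G') t t₀ then (hX t ht).choose else 0,
    fun s => if hs : Eqv (elim F') s s₀ then (hY s hs).choose else 0, fun s t hs ht => ?_⟩
  simp only [dif_pos hs, dif_pos ht]
  obtain ⟨x1, x2, x3⟩ := (hX t ht).choose_spec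
  obtain ⟨y1, y2, y3⟩ := (hY s hs).choose_spec
  set x := (hX t ht).choose
  set y := (hY s hs).choose
  have y1' : DF (sub1 A u v) R C (vl (lc c v) (s, ev m s)) y := by
    rw [vl_neg] at y1
    exact DF.of_tr y1
  have k1 := x2 s hs
  have k2' := y2 t ht
  have e4 : vl (lc (fun i => -b i) u) (t, ev w t) =
      fun i => -vl (lc b fun i => -u i) (t, ev w t) i := by
    rw [← vl_neg, e1]
  rw [e4, ip_neg_left, ip_neg_left, neg_inj] at k2'
  have k3 := (hxy (s, ev m s) (t, ev w t) ((m2 s hs).mono Finset.subset_union_left)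
    ((w2 t ht).mono Finset.subset_union_left)).eq
  rw [vl_lc] at x1 y1'
  refine opt_from (u := u) (v := v) x1 y1' ?_ x3 y3
  rw [← vl_lc, ← vl_lc, k1, k3, k2']

end

/-- Nested block structure of depth `D`: a matrix of rank at most one can be subtracted such that
the rest decomposes into blocks with structures of depth `D - 1`. -/
def Nested : ℕ → (M → N → ℝ) → Finset M → Finset N → Prop
  | 0, A, R, C => ∀ i ∈ R, ∀ j ∈ C, A i j = 0
  | D + 1, A, R, C => ∃ (u : M → ℝ) (v : N → ℝ) (p : M → ℕ) (q : N → ℕ),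
      (∀ i ∈ R, ∀ j ∈ C, p i ≠ q j → A i j = u i * v j) ∧
      ∀ k, Nested D (sub1 A u v) (R.filter fun i => p i = k) (C.filter fun j => q j = k)

theorem pow_add_two {n k : ℕ} (hn : 2 ≤ n) : n ^ k + 2 ≤ n ^ (k + 2) := by
  have h1 : 1 ≤ n ^ k := Nat.one_le_pow _ _ (by omega)
  have h2 : n ^ (k + 2) = n ^ k * n ^ 2 := pow_add _ _ _
  have h3 : 4 ≤ n ^ 2 := by nlinarith
  nlinarith

theorem arith_step {n a b r s k K : ℕ} (hn : 2 ≤ n) (ha : a ≤ n ^ K) (hb : b ≤ n ^ K)
    (hr : r ≤ (a + 2) ^ k) (hs : s ≤ (b + 2) ^ k) :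
    (a + r * s) * (a + r * s) + (a + r * s) ≤ n ^ (4 * k * (K + 2) + 2 * K + 3) := by
  have h1 : a + 2 ≤ n ^ (K + 2) := (Nat.add_le_add_right ha 2).trans (pow_add_two hn)
  have h2 : b + 2 ≤ n ^ (K + 2) := (Nat.add_le_add_right hb 2).trans (pow_add_two hn)
  have h3 : r ≤ n ^ ((K + 2) * k) := by
    rw [pow_mul]; exact hr.trans (Nat.pow_le_pow_left h1 k)
  have h4 : s ≤ n ^ ((K + 2) * k) := by
    rw [pow_mul]; exact hs.trans (Nat.pow_le_pow_left h2 k)
  have h5 : r * s ≤ n ^ (2 * k * (K + 2)) := by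
    calc r * s ≤ n ^ ((K + 2) * k) * n ^ ((K + 2) * k) := Nat.mul_le_mul h3 h4
      _ = n ^ (2 * k * (K + 2)) := by rw [← pow_add]; congr 1; ring
  set E := 2 * k * (K + 2) + K with hE
  have h6 : a ≤ n ^ E := ha.trans (Nat.pow_le_pow_right (by omega) (by omega))
  have h7 : r * s ≤ n ^ E := h5.trans (Nat.pow_le_pow_right (by omega) (by omega))
  have h8 : a + r * s ≤ n ^ (E + 1) := by
    have : n ^ (E + 1) = n ^ E * n := pow_succ _ _
    nlinarith
  have h9 : 1 ≤ n ^ (E + 1) := Nat.one_le_pow _ _ (by omega)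
  calc (a + r * s) * (a + r * s) + (a + r * s) ≤ n ^ (E + 1) * n ^ (E + 1) + n ^ (E + 1) :=
        Nat.add_le_add (Nat.mul_le_mul h8 h8) h8
    _ ≤ n ^ (E + 1) * n ^ (E + 1) * n := by nlinarith
    _ = n ^ (4 * k * (K + 2) + 2 * K + 3) := by
        rw [← pow_add, ← pow_succ]; congr 1; rw [hE]; ring

/-- the exponent for nested structures of depth `D` and spaces with parameter `k` -/
def KK : ℕ → ℕ → ℕ
  | 0, _ => 1
  | D + 1, k => 4 * (2 * k + 2) * ((KK D (2 * k + 2) + 1) + 2) + 2 * (KK D (2 * k + 2) + 1) + 3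

/-- **Selections for nested block structures.** -/
theorem nested_sel (D : ℕ) : ∀ (k : ℕ) (S T : Type) [AddCommGroup S] [Module ℝ S]
    [AddCommGroup T] [Module ℝ T], Cov S k → Cov T k → ∀ (A : M → N → ℝ) (R : Finset M)
    (C : Finset N) (c : N → Fn S) (b : M → Fn T), Nested D A R C →
    ∃ (F : Finset (Fn S)) (G : Finset (Fn T)), F.card ≤ (R.card + C.card + 2) ^ KK D k ∧
      G.card ≤ (R.card + C.card + 2) ^ KK D k ∧ Sel A R C c b F G := by
  classical
  induction D with
  | zero =>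
    intro k S T _ _ _ _ _ _ A R C c b h
    refine ⟨_, _, ?_, ?_, Sel.zero h⟩
    · rw [KK, pow_one]; exact Finset.card_image_le.trans (by omega)
    · rw [KK, pow_one]; exact Finset.card_image_le.trans (by omega)
  | succ D ih =>
    intro k S T _ _ _ _ hS hT A R C c b h
    have hK := ih (2 * k + 2)
    rw [KK]
    set K := KK D (2 * k + 2) with hKdef
    obtain ⟨u, v, p, q, h1, h2⟩ := h
    set n := R.card + C.card + 2 with hn
    have h3 : ∀ l : ℕ, ∃ (F : Finset (Fn (S × ℝ))) (G : Finset (Fn (T × ℝ))),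
        F.card ≤ n ^ K ∧ G.card ≤ n ^ K ∧
        Sel (sub1 A u v) (R.filter fun i => p i = l) (C.filter fun j => q j = l) (lc c v)
          (lc b fun i => -u i) F G := fun l => by
      obtain ⟨F, G, a1, a2, a3⟩ := hK (S × ℝ) (T × ℝ) hS.prod hT.prod (sub1 A u v) _ _ (lc c v)
        (lc b fun i => -u i) (h2 l)
      have h4 := Finset.card_filter_le R fun i => p i = l
      have h5 := Finset.card_filter_le C fun j => q j = l
      exact ⟨F, G, a1.trans (Nat.pow_le_pow_left (by omega) K),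
        a2.trans (Nat.pow_le_pow_left (by omega) K), a3⟩
    choose F G a1 a2 a3 using h3
    set L : Finset ℕ := R.image p ∪ C.image q with hL
    have hLc : L.card ≤ n := by
      have h4 : L.card ≤ (R.image p).card + (C.image q).card := Finset.card_union_le _ _
      have h5 := Finset.card_image_le (s := R) (f := p)
      have h6 := Finset.card_image_le (s := C) (f := q)
      omega
    have h4 : Sel (sub1 A u v) R C (lc c v) (lc b fun i => -u i) (L.biUnion F) (L.biUnion G) :=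
      Sel.blocks (p := p) (q := q) (fun i hi j hj hpq => by rw [sub1, h1 i hi j hj hpq, sub_self])
        (fun i hi => Finset.mem_union_left _ (Finset.mem_image_of_mem _ hi))
        (fun j hj => Finset.mem_union_right _ (Finset.mem_image_of_mem _ hj))
        fun l _ => a3 l
    have hn2 : 2 ≤ n := by omega
    have b1 : (L.biUnion F).card ≤ n ^ (K + 1) := by
      refine Finset.card_biUnion_le.trans ?_
      calc ∑ l ∈ L, (F l).card ≤ ∑ _l ∈ L, n ^ K := Finset.sum_le_sum fun l _ => a1 l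
        _ = L.card * n ^ K := by rw [Finset.sum_const, smul_eq_mul]
        _ ≤ n * n ^ K := Nat.mul_le_mul_right _ hLc
        _ = n ^ (K + 1) := by rw [pow_succ]; ring
    have b2 : (L.biUnion G).card ≤ n ^ (K + 1) := by
      refine Finset.card_biUnion_le.trans ?_
      calc ∑ l ∈ L, (G l).card ≤ ∑ _l ∈ L, n ^ K := Finset.sum_le_sum fun l _ => a2 l
        _ = L.card * n ^ K := by rw [Finset.sum_const, smul_eq_mul]
        _ ≤ n * n ^ K := Nat.mul_le_mul_right _ hLc
        _ = n ^ (K + 1) := by rw [pow_succ]; ring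
    obtain ⟨RS, r1, r2⟩ := hS.prod (L.biUnion F)
    obtain ⟨RT, r3, r4⟩ := hT.prod (L.biUnion G)
    obtain ⟨F', G', c1, c2, c3⟩ := h4.rank_one r2 r4
    refine ⟨elim F', elim G', ?_, ?_, c3⟩
    · refine (card_elim F').trans ?_
      refine le_trans ?_ (arith_step hn2 b1 b2 r1 r3)
      exact Nat.add_le_add (Nat.mul_le_mul c1 c1) c1
    · refine (card_elim G').trans ?_
      refine le_trans ?_ (arith_step hn2 b2 b1 r3 r1)
      rw [mul_comm RT.card]
      exact Nat.add_le_add (Nat.mul_le_mul c2 c2) c2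

end Pool.Agent.Y644.PL
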