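import Pool.Agent.Y644.PL.Sel
set_option autoImplicit false
set_option linter.unusedSectionVars false
set_option linter.unusedVariables false

/-!
# Parametric linear programs: perturbations of rank one
-/

namespace Pool.Agent.Y644.PL

open Filter Topology

variable {M N : Type} [Fintype M] [Fintype N]
variable {S T : Type} [AddCommGroup S] [Module ℝ S] [AddCommGroup T] [Module ℝ T]

/-- the cost vector with a multiplier -/
def lc (c : N → Fn S) (v : N → ℝ) : N → Fn (S × ℝ) := fun j => lift (c j) (v j)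

theorem ip_lc (c : N → Fn S) (v : N → ℝ) (s : S) (μ : ℝ) (x : N → ℝ) :
    ip (vl (lc c v) (s, μ)) x = ip (vl c s) x + μ * ip v x := by
  unfold ip vl lc
  rw [Finset.mul_sum, ← Finset.sum_add_distrib]
  exact Finset.sum_congr rfl fun j _ => by rw [ev_lift]; ring

theorem vl_shift (c : N → Fn S) (v : N → ℝ) (s : S) (μ a : ℝ) :
    vl (lc c v) (s, μ + a) = fun j => vl (lc c v) (s, μ) j + a * v j := by
  funext j
  simp only [vl, lc, ev_lift]
  ring

theorem Opt.val {A : M → N → ℝ} {R : Finset M} {C : Finset N} {c : N → ℝ} {b : M → ℝ}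
    {x x' : N → ℝ} {y y' : M → ℝ} (h : Opt A R C c b x y) (h' : Opt A R C c b x' y') :
    ip c x = ip c x' := by
  have h1 := weak h.pf h'.df
  have h2 := weak h'.pf h.df
  have h3 := h.eq
  have h4 := h'.eq
  linarith

theorem DF.conv {A : M → N → ℝ} {R : Finset M} {C : Finset N} {c c' : N → ℝ}
    {y y' : M → ℝ} (h : DF A R C c y) (h' : DF A R C c' y') {a : ℝ} (a0 : 0 ≤ a) (a1 : a ≤ 1) :
    DF A R C (fun j => (1 - a) * c j + a * c' j) (fun i => (1 - a) * y i + a * y' i) := by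
  refine ⟨fun i => add_nonneg (mul_nonneg (by linarith) (h.nn i)) (mul_nonneg a0 (h'.nn i)),
    fun i hi => by rw [h.off i hi, h'.off i hi]; ring, fun j hj => ?_⟩
  have e : ∑ i, A i j * ((1 - a) * y i + a * y' i) =
      (1 - a) * ∑ i, A i j * y i + a * ∑ i, A i j * y' i := by
    rw [Finset.mul_sum, Finset.mul_sum, ← Finset.sum_add_distrib]
    exact Finset.sum_congr rfl fun _ _ => by ring
  rw [e]
  exact add_le_add (mul_le_mul_of_nonneg_left (h.le j hj) (by linarith))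
    (mul_le_mul_of_nonneg_left (h'.le j hj) a0)

theorem PF.conv {A : M → N → ℝ} {R : Finset M} {C : Finset N} {b : M → ℝ}
    {x x' : N → ℝ} (h : PF A R C b x) (h' : PF A R C b x') {a : ℝ} (a0 : 0 ≤ a) (a1 : a ≤ 1) :
    PF A R C b (fun j => (1 - a) * x j + a * x' j) := by
  refine ⟨fun i => add_nonneg (mul_nonneg (by linarith) (h.nn i)) (mul_nonneg a0 (h'.nn i)),
    fun i hi => by rw [h.off i hi, h'.off i hi]; ring, fun i hi => ?_⟩
  have e : ∑ j, A i j * ((1 - a) * x j + a * x' j) =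
      (1 - a) * ∑ j, A i j * x j + a * ∑ j, A i j * x' j := by
    rw [Finset.mul_sum, Finset.mul_sum, ← Finset.sum_add_distrib]
    exact Finset.sum_congr rfl fun _ _ => by ring
  rw [e]
  have h1 := mul_le_mul_of_nonneg_left (h.le i hi) (by linarith : 0 ≤ 1 - a)
  have h2 := mul_le_mul_of_nonneg_left (h'.le i hi) a0
  linarith

theorem PF.ray {A : M → N → ℝ} {R : Finset M} {C : Finset N} {b : M → ℝ}
    {x d : N → ℝ} (h : PF A R C b x) (h' : PF A R C (fun _ => 0) d) {a : ℝ} (a0 : 0 ≤ a) :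
    PF A R C b (fun j => x j + a * d j) := by
  refine ⟨fun i => add_nonneg (h.nn i) (mul_nonneg a0 (h'.nn i)),
    fun i hi => by rw [h.off i hi, h'.off i hi]; ring, fun i hi => ?_⟩
  have e : ∑ j, A i j * (x j + a * d j) = ∑ j, A i j * x j + a * ∑ j, A i j * d j := by
    rw [Finset.mul_sum, ← Finset.sum_add_distrib]
    exact Finset.sum_congr rfl fun _ _ => by ring
  rw [e]
  have h1 := h.le i hi
  have h2 := mul_le_mul_of_nonneg_left (h'.le i hi) a0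
  linarith

/-- On the classes of `P` and `Q` the slope of the optimal value in the direction of the
multiplier is the function `k`. -/
def KP (A : M → N → ℝ) (R : Finset M) (C : Finset N) (c : N → Fn S) (v : N → ℝ) (b : M → Fn T)
    (F : Finset (Fn (S × ℝ))) (G : Finset (Fn T)) (P : S × ℝ) (Q : T) (k : Fn T) : Prop :=
  ∀ s μ₁ μ₂ t x y₁ y₂, Eqv F (s, μ₁) P → Eqv F (s, μ₂) P → μ₁ ≠ μ₂ → Eqv G t Q →
    Opt A R C (vl (lc c v) (s, μ₁)) (vl b t) x y₁ →
    Opt A R C (vl (lc c v) (s, μ₂)) (vl b t) x y₂ → ip v x = ev k t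

variable {A : M → N → ℝ} {R : Finset M} {C : Finset N} {c : N → Fn S} {v : N → ℝ} {b : M → Fn T}
  {F : Finset (Fn (S × ℝ))} {G : Finset (Fn T)}

theorem exists_k (h : Sel A R C (lc c v) b F G) (P : S × ℝ) (Q : T) :
    ∃ k, KP A R C c v b F G P Q k := by
  classical
  by_cases hyp : ∃ s μ₁ μ₂ t x y₁ y₂, Eqv F (s, μ₁) P ∧ Eqv F (s, μ₂) P ∧ μ₁ ≠ μ₂ ∧ Eqv G t Q ∧
    Opt A R C (vl (lc c v) (s, μ₁)) (vl b t) x y₁ ∧ Opt A R C (vl (lc c v) (s, μ₂)) (vl b t) x y₂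
  · obtain ⟨s, μ₁, μ₂, t, x, y₁, y₂, h1, h2, h3, h4, h5, h6⟩ := hyp
    obtain ⟨X, Y, hXY⟩ := h (s, μ₁) t ⟨_, h5.df⟩ ⟨_, h5.pf⟩
    refine ⟨∑ i, ((Y (s, μ₁) i - Y (s, μ₂) i) / (μ₁ - μ₂)) • b i, ?_⟩
    intro s' μ₁' μ₂' t' x' y₁' y₂' g1 g2 g3 g4 g5 g6
    have e1 := g5.val (hXY _ _ (g1.trans h1.symm) (g4.trans h4.symm))
    have e2 := g6.val (hXY _ _ (g2.trans h1.symm) (g4.trans h4.symm))
    rw [ip_lc, ip_lc] at e1 e2
    have e3 : ip v x' = ip v (X t') := by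
      have : (μ₁' - μ₂') * (ip v x' - ip v (X t')) = 0 := by linarith
      rcases mul_eq_zero.1 this with h0 | h0
      · exact absurd (sub_eq_zero.1 h0) g3
      · exact sub_eq_zero.1 h0
    rw [e3]
    have f1 := (hXY _ _ (Eqv.refl _ _) (g4.trans h4.symm)).eq
    have f2 := (hXY _ _ (h2.trans h1.symm) (g4.trans h4.symm)).eq
    rw [ip_lc] at f1 f2
    have hne : μ₁ - μ₂ ≠ 0 := sub_ne_zero.2 h3
    rw [ev_sum]
    have e4 : ∑ i, ev (((Y (s, μ₁) i - Y (s, μ₂) i) / (μ₁ - μ₂)) • b i) t' =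
        (ip (vl b t') (Y (s, μ₁)) - ip (vl b t') (Y (s, μ₂))) / (μ₁ - μ₂) := by
      unfold ip
      rw [← Finset.sum_sub_distrib, Finset.sum_div]
      refine Finset.sum_congr rfl fun i _ => ?_
      rw [ev_smul]
      simp only [vl]
      ring
    rw [e4, ← f1, ← f2, eq_div_iff hne]
    ring
  · refine ⟨0, ?_⟩
    intro s μ₁ μ₂ t x y₁ y₂ h1 h2 h3 h4 h5 h6
    exact absurd ⟨s, μ₁, μ₂, t, x, y₁, y₂, h1, h2, h3, h4, h5, h6⟩ hyp

/-- signs next to a point -/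
theorem near {s s' : S} {μ μ' : ℝ} (h : Eqv F (s, μ) (s', μ')) (e : ℝ) :
    ∀ᶠ ε in 𝓝[>] (0 : ℝ), ∀ f ∈ F, SignType.sign (ev f (s, μ + ε * e)) =
      if ev f (s', μ') = 0 then SignType.sign (e * al f) else SignType.sign (ev f (s', μ')) := by
  rw [eventually_all_finset]
  intro f hf
  filter_upwards [sign_small (ev f (s, μ)) (e * al f)] with ε hε
  have e1 : ev f (s, μ + ε * e) = ev f (s, μ) + ε * (e * al f) := by
    rw [ev_prod, ev_prod]; ring
  rw [e1, hε]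
  have h1 := h f hf
  have h2 : ev f (s, μ) = 0 ↔ ev f (s', μ') = 0 := by
    rw [← sign_eq_zero_iff, h1, sign_eq_zero_iff]
  by_cases h3 : ev f (s', μ') = 0
  · rw [if_pos h3, if_pos (h2.2 h3)]
  · rw [if_neg h3, if_neg (mt h2.1 h3), h1]

theorem sign_ge {a b e : ℝ} (he : e = 1 ∨ e = -1) (h : SignType.sign a = SignType.sign b)
    (hb : 0 ≤ e * b) : 0 ≤ e * a := by
  rcases he with rfl | rfl
  · rw [one_mul] at hb ⊢
    rw [← sign_nonneg_iff, h, sign_nonneg_iff]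
    exact hb
  · have : b ≤ 0 := by linarith
    have : a ≤ 0 := by
      rw [← sign_nonpos_iff, h, sign_nonpos_iff]; exact this
    linarith

theorem side {RS : Finset (S × ℝ)} {RT : Finset T} (hRS : ∀ p, ∃ r ∈ RS, Eqv F p r)
    (hRT : ∀ t, ∃ r ∈ RT, Eqv G t r) (hsel : Sel A R C (lc c v) b F G)
    {kk : S × ℝ → T → Fn T} (hk : ∀ P Q, KP A R C c v b F G P Q (kk P Q)) {zf : Fn T}
    {G2 : Finset (Fn T)} (hG : G ⊆ G2) (hG2 : ∀ P ∈ RS, ∀ Q ∈ RT, kk P Q - zf ∈ G2)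
    {s₀ : S} {μ₀ : ℝ} {t₀ : T} {x₀ : N → ℝ} {y₀ : M → ℝ}
    (h0 : Opt A R C (vl (lc c v) (s₀, μ₀)) (vl b t₀) x₀ y₀) (hz : ip v x₀ = ev zf t₀)
    {Sg : S → Prop} {m : Fn S} (hm0 : ev m s₀ = μ₀)
    (hm : ∀ s, Sg s → Eqv F (s, ev m s) (s₀, μ₀))
    (hS : ∀ s, Sg s → ∃ δ : ℝ, 0 < δ ∧ Sg (s₀ + δ • (s₀ - s)))
    {xs : T → N → ℝ} {ys : S × ℝ → M → ℝ}
    (hxy : ∀ p t, Eqv F p (s₀, μ₀) → Eqv G t t₀ →
      Opt A R C (vl (lc c v) p) (vl b t) (xs t) (ys p))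
    {t : T} (ht : Eqv G2 t t₀) {e : ℝ} (he : e = 1 ∨ e = -1) :
    ∃ x, PF A R C (vl b t) x ∧ (∀ s, Sg s → ip (vl (lc c v) (s, ev m s)) x =
      ip (vl (lc c v) (s, ev m s)) (xs t)) ∧ e * ev zf t ≤ e * ip v x := by
  classical
  have htG := ht.mono hG
  have hxt : ∀ s, Sg s → Opt A R C (vl (lc c v) (s, ev m s)) (vl b t) (xs t) (ys (s, ev m s)) :=
    fun s hs => hxy _ _ (hm s hs) htG
  have hshift : ∀ (s : S) (μ ε : ℝ), vl (lc c v) (s, μ + ε * e) =
      fun j => vl (lc c v) (s, μ) j + ε * (e * v j) := fun s μ ε => by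
    rw [vl_shift]; funext j; ring
  by_cases ha : ∃ ε, 0 < ε ∧ ∃ y, DF A R C (vl (lc c v) (s₀, μ₀ + ε * e)) y
  · obtain ⟨ε₁, p1, y₁, hy₁⟩ := ha
    have hfe : ∀ ε, 0 < ε → ε ≤ ε₁ → ∃ y, DF A R C (vl (lc c v) (s₀, μ₀ + ε * e)) y := by
      intro ε h1 h2
      refine ⟨_, (?_ : DF A R C _ (fun i => (1 - ε / ε₁) * y₀ i + ε / ε₁ * y₁ i))⟩
      have h3 := h0.df.conv hy₁ (a := ε / ε₁) (by positivity) ((div_le_one p1).2 h2)
      convert h3 using 1
      funext j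
      rw [hshift, hshift]
      field_simp
      ring
    obtain ⟨δ, hδ, hQ⟩ := mem_nhdsGT_iff_exists_Ioo_subset.1 (near (Eqv.refl F (s₀, μ₀)) e)
    have hδ0 : (0 : ℝ) < δ := hδ
    set ε₃ := min δ ε₁ / 2 with hε₃
    have q1 : 0 < ε₃ := by positivity
    have q2 : ε₃ < δ := by have := min_le_left δ ε₁; have := lt_min hδ0 p1; rw [hε₃]; linarith
    have q3 : ε₃ ≤ ε₁ := by have := min_le_right δ ε₁; have := lt_min hδ0 p1; rw [hε₃]; linarith
    set P₁ : S × ℝ := (s₀, μ₀ + ε₃ * e) with hP₁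
    have hsg₁ : ∀ f ∈ F, SignType.sign (ev f P₁) =
      if ev f (s₀, μ₀) = 0 then SignType.sign (e * al f) else SignType.sign (ev f (s₀, μ₀)) :=
      hQ ⟨q1, q2⟩
    have hcl : Eqv F (s₀, μ₀ + ε₃ / 2 * e) P₁ := fun f hf => by
      rw [hsg₁ f hf]
      exact hQ (⟨by positivity, by linarith⟩ : ε₃ / 2 ∈ Set.Ioo 0 δ) f hf
    obtain ⟨P, hP, hPP⟩ := hRS P₁
    obtain ⟨Q, hQm, hQQ⟩ := hRT t₀
    obtain ⟨xR, yR, hR⟩ := hsel P₁ t₀ (hfe ε₃ q1 q3) ⟨_, h0.pf⟩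
    have hv : ∀ t', Eqv G t' t₀ → ip v (xR t') = ev (kk P Q) t' := fun t' ht' =>
      hk P Q s₀ (μ₀ + ε₃ * e) (μ₀ + ε₃ / 2 * e) t' (xR t') _ _ hPP (hcl.trans hPP)
        (by
          intro h
          have : ε₃ * e = ε₃ / 2 * e := add_left_cancel h
          rcases he with rfl | rfl <;> linarith)
        (ht'.trans hQQ) (hR _ _ (Eqv.refl _ _) ht') (hR _ _ hcl ht')
    have h1 : e * ip v x₀ ≤ e * ip v (xR t₀) := by
      have a1 := weak h0.pf (hR _ _ (Eqv.refl _ _) (Eqv.refl _ _)).df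
      rw [← (hR _ _ (Eqv.refl _ _) (Eqv.refl _ _)).eq] at a1
      have a2 := weak (hR _ _ (Eqv.refl F P₁) (Eqv.refl _ _)).pf h0.df
      rw [← h0.eq] at a2
      rw [hP₁, ip_lc, ip_lc] at a1
      rw [ip_lc, ip_lc] at a2
      have a3 : ε₃ * (e * ip v x₀) ≤ ε₃ * (e * ip v (xR t₀)) := by linarith
      exact le_of_mul_le_mul_left a3 q1
    rw [hz, hv t₀ (Eqv.refl _ _)] at h1
    have h2 : 0 ≤ e * ev (kk P Q - zf) t₀ := by rw [ev_sub]; linarith
    have h3 := sign_ge he (ht _ (hG2 P hP Q hQm)) h2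
    rw [ev_sub, ← hv t htG] at h3
    refine ⟨xR t, (hR _ _ (Eqv.refl _ _) htG).pf, fun s hs => ?_, by linarith⟩
    refine le_antisymm ?_ ?_
    · have := weak (hR _ _ (Eqv.refl _ _) htG).pf (hxt s hs).df
      rwa [← (hxt s hs).eq] at this
    · by_contra hcon
      push Not at hcon
      have n1 := near (hm s hs) e
      have n2 := sign_small (ip (vl (lc c v) (s, ev m s)) (xR t) -
        ip (vl (lc c v) (s, ev m s)) (xs t)) (e * (ip v (xR t) - ip v (xs t)))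
      obtain ⟨ε, m1, m2⟩ := (n1.and n2).exists
      rw [if_neg (by linarith), sign_neg (sub_neg.2 hcon), sign_eq_neg_one_iff] at m2
      have hq : Eqv F (s, ev m s + ε * e) P₁ := fun f hf => by rw [hsg₁ f hf]; exact m1 f hf
      have o := hR _ _ hq htG
      have a1 := weak (hxt s hs).pf o.df
      rw [← o.eq, ip_lc, ip_lc] at a1
      rw [ip_lc, ip_lc] at m2
      linarith
  · push Not at ha
    obtain ⟨d, d1, d2, d3⟩ := ray (v := fun j => e * v j) h0.df (by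
      rintro ε hε ⟨y, hy⟩
      refine ha ε hε y ?_
      rw [hshift]
      exact hy)
    rw [ip_smul_left] at d3
    set gf : Fn S := (∑ j, d j • c j) + (ip v d) • m with hgf
    have hg : ∀ s, ip (vl (lc c v) (s, ev m s)) d = ev gf s := fun s => by
      rw [ip_lc, hgf, ev_add, ev_smul, ev_sum]
      have : ip (vl c s) d = ∑ j, ev (d j • c j) s := by
        unfold ip
        exact Finset.sum_congr rfl fun j _ => by rw [ev_smul]; simp only [vl]; ring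
      rw [this]; ring
    have hzero : ∀ y : M → ℝ, ip (fun _ => (0 : ℝ)) y = 0 := fun y => by simp [ip]
    have hg0 : ∀ s, Sg s → ev gf s ≤ 0 := fun s hs => by
      have := weak d1 (hxt s hs).df
      rw [hzero, hg] at this
      exact this
    have hgz : ev gf s₀ = 0 := by rw [← hg, hm0]; exact d2
    have hge : ∀ s, Sg s → ev gf s = 0 := fun s hs => by
      obtain ⟨δ, k1, k2⟩ := hS s hs
      have k3 := hg0 _ k2
      rw [ev_line, hgz] at k3
      have k4 := hg0 s hs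
      nlinarith
    set a := |e * ev zf t - e * ip v (xs t)| / (e * ip v d) with haa
    have ha0 : 0 ≤ a := by positivity
    refine ⟨fun j => xs t j + a * d j, ?_, fun s hs => ?_, ?_⟩
    · exact PF.ray (hxy (s₀, μ₀) t (Eqv.refl _ _) htG).pf d1 ha0
    · rw [ip_add_right, ip_smul_right, hg, hge s hs]
      ring
    · rw [ip_add_right, ip_smul_right]
      have k1 : a * (e * ip v d) = |e * ev zf t - e * ip v (xs t)| := by
        rw [haa, div_mul_cancel₀ _ d3.ne']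
      have k2 := le_abs_self (e * ev zf t - e * ip v (xs t))
      linarith

theorem both {RS : Finset (S × ℝ)} {RT : Finset T} (hRS : ∀ p, ∃ r ∈ RS, Eqv F p r)
    (hRT : ∀ t, ∃ r ∈ RT, Eqv G t r) (hsel : Sel A R C (lc c v) b F G)
    {kk : S × ℝ → T → Fn T} (hk : ∀ P Q, KP A R C c v b F G P Q (kk P Q)) {zf : Fn T}
    {G2 : Finset (Fn T)} (hG : G ⊆ G2) (hG2 : ∀ P ∈ RS, ∀ Q ∈ RT, kk P Q - zf ∈ G2)
    {s₀ : S} {μ₀ : ℝ} {t₀ : T} {x₀ : N → ℝ} {y₀ : M → ℝ}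
    (h0 : Opt A R C (vl (lc c v) (s₀, μ₀)) (vl b t₀) x₀ y₀) (hz : ip v x₀ = ev zf t₀)
    {Sg : S → Prop} {m : Fn S} (hm0 : ev m s₀ = μ₀)
    (hm : ∀ s, Sg s → Eqv F (s, ev m s) (s₀, μ₀))
    (hS : ∀ s, Sg s → ∃ δ : ℝ, 0 < δ ∧ Sg (s₀ + δ • (s₀ - s)))
    {xs : T → N → ℝ} {ys : S × ℝ → M → ℝ}
    (hxy : ∀ p t, Eqv F p (s₀, μ₀) → Eqv G t t₀ →
      Opt A R C (vl (lc c v) p) (vl b t) (xs t) (ys p))
    {t : T} (ht : Eqv G2 t t₀) :
    ∃ x, PF A R C (vl b t) x ∧ (∀ s, Sg s → ip (vl (lc c v) (s, ev m s)) x =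
      ip (vl (lc c v) (s, ev m s)) (xs t)) ∧ ip v x = ev zf t := by
  obtain ⟨x, x1, x2, x3⟩ := side hRS hRT hsel hk hG hG2 h0 hz hm0 hm hS hxy ht (Or.inl rfl)
  obtain ⟨x', z1, z2, z3⟩ := side hRS hRT hsel hk hG hG2 h0 hz hm0 hm hS hxy ht (Or.inr rfl)
  have x3' : ev zf t ≤ ip v x := by linarith
  have z3' : ip v x' ≤ ev zf t := by linarith
  rcases x3'.lt_or_eq with h | h
  · have hd : 0 < ip v x - ip v x' := by linarith
    set a := (ip v x - ev zf t) / (ip v x - ip v x') with ha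
    have a0 : 0 ≤ a := div_nonneg (by linarith) hd.le
    have a1 : a ≤ 1 := (div_le_one hd).2 (by linarith)
    have a2 : a * (ip v x - ip v x') = ip v x - ev zf t := div_mul_cancel₀ _ hd.ne'
    refine ⟨_, x1.conv z1 a0 a1, fun s hs => ?_, ?_⟩
    · rw [ip_add_right, ip_smul_right, ip_smul_right, x2 s hs, z2 s hs]
      ring
    · rw [ip_add_right, ip_smul_right, ip_smul_right]
      linarith
  · exact ⟨x, x1, x2, h.symm⟩

end Pool.Agent.Y644.PL
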