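import Pool.Agent.Y644.PL.Dual
import Pool.Agent.Y644.PL.Cell
set_option autoImplicit false
set_option linter.unusedSectionVars false

/-!
# Parametric linear programs: selections of optimal solutions on sign classes
-/

namespace Pool.Agent.Y644.PL

open Filter Topology

variable {M N : Type} [Fintype M] [Fintype N]
variable {S T : Type} [AddCommGroup S] [Module ℝ S] [AddCommGroup T] [Module ℝ T]

/-- the values of a vector of affine functions -/
def vl {N S : Type} [AddCommGroup S] [Module ℝ S] (c : N → Fn S) (s : S) : N → ℝ :=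
  fun j => ev (c j) s

/-- On the product of the class of `s₀` and the class of `t₀` there are optimal solutions such that
the primal one depends only on `t` and the dual one only on `s`. -/
def Sel (A : M → N → ℝ) (R : Finset M) (C : Finset N) (c : N → Fn S) (b : M → Fn T)
    (F : Finset (Fn S)) (G : Finset (Fn T)) : Prop :=
  ∀ s₀ t₀, (∃ y, DF A R C (vl c s₀) y) → (∃ x, PF A R C (vl b t₀) x) →
    ∃ (x : T → N → ℝ) (y : S → M → ℝ), ∀ s t, Eqv F s s₀ → Eqv G t t₀ →
      Opt A R C (vl c s) (vl b t) (x t) (y s)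

variable {A : M → N → ℝ} {R : Finset M} {C : Finset N} {c : N → Fn S} {b : M → Fn T}
  {F F' : Finset (Fn S)} {G G' : Finset (Fn T)}

theorem Sel.mono (h : Sel A R C c b F G) (hF : F ⊆ F') (hG : G ⊆ G') : Sel A R C c b F' G' := by
  intro s₀ t₀ h1 h2
  obtain ⟨x, y, h3⟩ := h s₀ t₀ h1 h2
  exact ⟨x, y, fun s t hs ht => h3 s t (hs.mono hF) (ht.mono hG)⟩

theorem Opt.tr {c : N → ℝ} {b : M → ℝ} {x : N → ℝ} {y : M → ℝ} (h : Opt A R C c b x y) :
    Opt (tr A) C R (fun i => -b i) (fun j => -c j) y x :=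
  ⟨h.df.tr, h.pf.tr, by rw [ip_neg_left, ip_neg_left, h.eq]⟩

theorem vl_neg (c : N → Fn S) (s : S) : vl (fun j => -c j) s = fun j => -vl c s j := by
  funext j; exact ev_neg _ _

theorem DF.of_tr {c : N → ℝ} {y : M → ℝ} (h : PF (PL.tr A) C R (fun j => -c j) y) :
    DF A R C c y := by
  have := h.tr
  rw [tr_tr] at this
  simpa using this

theorem PF.of_tr {b : M → ℝ} {x : N → ℝ} (h : DF (PL.tr A) C R (fun j => -b j) x) :
    PF A R C b x := by
  have := h.tr
  rw [tr_tr] at this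
  simpa using this

theorem Sel.tr (h : Sel A R C c b F G) :
    Sel (tr A) C R (fun i => -b i) (fun j => -c j) G F := by
  intro t₀ s₀ h1 h2
  simp only [vl_neg] at h1 h2
  obtain ⟨x, h1⟩ := h1
  obtain ⟨y, h2⟩ := h2
  obtain ⟨x, y, h3⟩ := h s₀ t₀ ⟨y, DF.of_tr h2⟩ ⟨x, PF.of_tr h1⟩
  refine ⟨y, x, fun t s ht hs => ?_⟩
  rw [vl_neg, vl_neg]
  exact (h3 s t hs ht).tr

/-! ### Blocks -/

section Blocks

variable {p : M → ℕ} {q : N → ℕ}

theorem PF.glue {b : M → ℝ} (hA : ∀ i ∈ R, ∀ j ∈ C, p i ≠ q j → A i j = 0) {K : Finset ℕ}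
    (hR : ∀ i ∈ R, p i ∈ K) (hC : ∀ j ∈ C, q j ∈ K) {X : ℕ → N → ℝ}
    (h : ∀ k ∈ K, PF A (R.filter fun i => p i = k) (C.filter fun j => q j = k) b (X k)) :
    PF A R C b (fun j => ∑ k ∈ K, X k j) := by
  have hz : ∀ k ∈ K, ∀ j, j ∈ C → q j ≠ k → X k j = 0 := fun k hk j _ hj =>
    (h k hk).off j (by simp [hj])
  refine ⟨fun j => Finset.sum_nonneg fun k hk => (h k hk).nn j,
    fun j hj => Finset.sum_eq_zero fun k hk => (h k hk).off j (by simp [hj]), fun i hi => ?_⟩
  have e : ∑ j, A i j * ∑ k ∈ K, X k j = ∑ j, A i j * X (p i) j := by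
    refine Finset.sum_congr rfl fun j _ => ?_
    by_cases hj : j ∈ C
    · by_cases hpq : p i = q j
      · rw [Finset.sum_eq_single (p i)]
        · intro k hk hkp
          exact hz k hk j hj (by rw [← hpq]; exact hkp.symm)
        · intro hn
          exact absurd (hR i hi) hn
      · rw [hA i hi j hj hpq, zero_mul, zero_mul]
    · rw [(h _ (hR i hi)).off j (by simp [hj]),
        Finset.sum_eq_zero fun k hk => (h k hk).off j (by simp [hj])]
  rw [e]
  exact (h _ (hR i hi)).le i (Finset.mem_filter.2 ⟨hi, rfl⟩)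

theorem PF.part {b : M → ℝ} (hA : ∀ i ∈ R, ∀ j ∈ C, p i ≠ q j → A i j = 0) {x : N → ℝ}
    (h : PF A R C b x) (k : ℕ) : PF A (R.filter fun i => p i = k) (C.filter fun j => q j = k) b
      (fun j => if q j = k then x j else 0) := by
  refine ⟨fun j => ?_, fun j hj => ?_, fun i hi => ?_⟩
  · split_ifs
    · exact h.nn j
    · exact le_rfl
  · split_ifs with hq
    · exact h.off j fun hc => hj (Finset.mem_filter.2 ⟨hc, hq⟩)
    · rfl
  · obtain ⟨h1, h2⟩ := Finset.mem_filter.1 hi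
    have e : ∑ j, A i j * (if q j = k then x j else 0) = ∑ j, A i j * x j := by
      refine Finset.sum_congr rfl fun j _ => ?_
      split_ifs with hq
      · rfl
      · by_cases hj : j ∈ C
        · rw [hA i h1 j hj (by rw [h2]; exact fun h => hq h.symm), zero_mul, zero_mul]
        · rw [h.off j hj]
    rw [e]
    exact h.le i h1

theorem tr_block (hA : ∀ i ∈ R, ∀ j ∈ C, p i ≠ q j → A i j = 0) :
    ∀ j ∈ C, ∀ i ∈ R, q j ≠ p i → PL.tr A j i = 0 := fun j hj i hi h => by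
  rw [PL.tr, hA i hi j hj h.symm, neg_zero]

theorem Sel.blocks [DecidableEq (Fn S)] [DecidableEq (Fn T)]
    (hA : ∀ i ∈ R, ∀ j ∈ C, p i ≠ q j → A i j = 0) {K : Finset ℕ}
    (hR : ∀ i ∈ R, p i ∈ K) (hC : ∀ j ∈ C, q j ∈ K) {F : ℕ → Finset (Fn S)}
    {G : ℕ → Finset (Fn T)}
    (h : ∀ k ∈ K, Sel A (R.filter fun i => p i = k) (C.filter fun j => q j = k) c b (F k) (G k)) :
    Sel A R C c b (K.biUnion F) (K.biUnion G) := by
  rintro s₀ t₀ ⟨y₀, hy⟩ ⟨x₀, hx⟩
  have h1 : ∀ k ∈ K, ∃ (x : T → N → ℝ) (y : S → M → ℝ), ∀ s t, Eqv (F k) s s₀ → Eqv (G k) t t₀ →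
      Opt A (R.filter fun i => p i = k) (C.filter fun j => q j = k) (vl c s) (vl b t) (x t)
        (y s) := fun k hk => by
    refine h k hk s₀ t₀ ⟨fun i => if p i = k then y₀ i else 0, ?_⟩ ⟨_, hx.part hA k⟩
    exact DF.of_tr (hy.tr.part (tr_block hA) k)
  choose! x y h2 using h1
  refine ⟨fun t j => ∑ k ∈ K, x k t j, fun s i => ∑ k ∈ K, y k s i, fun s t hs ht => ?_⟩
  have h3 : ∀ k ∈ K, Opt A (R.filter fun i => p i = k) (C.filter fun j => q j = k) (vl c s)
      (vl b t) (x k t) (y k s) := fun k hk =>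
    h2 k hk s t (hs.mono (Finset.subset_biUnion_of_mem F hk))
      (ht.mono (Finset.subset_biUnion_of_mem G hk))
  refine ⟨PF.glue hA hR hC fun k hk => (h3 k hk).pf,
    DF.of_tr (PF.glue (tr_block hA) hC hR fun k hk => (h3 k hk).df.tr), ?_⟩
  have e1 : ip (vl c s) (fun j => ∑ k ∈ K, x k t j) = ∑ k ∈ K, ip (vl c s) (x k t) := by
    unfold ip
    rw [Finset.sum_comm]
    exact Finset.sum_congr rfl fun j _ => by rw [Finset.mul_sum]
  have e2 : ip (vl b t) (fun i => ∑ k ∈ K, y k s i) = ∑ k ∈ K, ip (vl b t) (y k s) := by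
    unfold ip
    rw [Finset.sum_comm]
    exact Finset.sum_congr rfl fun j _ => by rw [Finset.mul_sum]
  rw [e1, e2]
  exact Finset.sum_congr rfl fun k hk => (h3 k hk).eq

end Blocks

/-- the zero matrix -/
theorem Sel.zero [DecidableEq (Fn S)] [DecidableEq (Fn T)]
    (hA : ∀ i ∈ R, ∀ j ∈ C, A i j = 0) : Sel A R C c b (C.image c) (R.image b) := by
  rintro s₀ t₀ ⟨y₀, hy⟩ ⟨x₀, hx⟩
  refine ⟨fun _ _ => 0, fun _ _ => 0, fun s t hs ht => ⟨⟨fun _ => le_rfl, fun _ _ => rfl,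
    fun i hi => ?_⟩, ⟨fun _ => le_rfl, fun _ _ => rfl, fun j hj => ?_⟩, by simp [ip]⟩⟩
  · have h1 := hx.le i hi
    have e : ∑ j, A i j * x₀ j = 0 := Finset.sum_eq_zero fun j _ => by
      by_cases hj : j ∈ C
      · rw [hA i hi j hj, zero_mul]
      · rw [hx.off j hj, mul_zero]
    rw [e] at h1
    have h2 := ht _ (Finset.mem_image_of_mem b hi)
    simp only [mul_zero, Finset.sum_const_zero]
    change 0 ≤ ev (b i) t
    rw [← sign_nonneg_iff, h2, sign_nonneg_iff]
    exact h1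
  · have h1 := hy.le j hj
    have e : ∑ i, A i j * y₀ i = 0 := Finset.sum_eq_zero fun i _ => by
      by_cases hi : i ∈ R
      · rw [hA i hi j hj, zero_mul]
      · rw [hy.off i hi, mul_zero]
    rw [e] at h1
    have h2 := hs _ (Finset.mem_image_of_mem c hj)
    simp only [mul_zero, Finset.sum_const_zero]
    change ev (c j) s ≤ 0
    rw [← sign_nonpos_iff, h2, sign_nonpos_iff]
    exact h1

end Pool.Agent.Y644.PL
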